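import Mathlib

set_option autoImplicit false

namespace Pool.Agent.Helper25.SNum

open Polynomial

/-- the naive height of an integer polynomial (same term as in the frozen statement) -/
def ht (P : ℤ[X]) : ℕ := P.support.sup (fun i => (P.coeff i).natAbs)

lemma natAbs_coeff_le_ht (P : ℤ[X]) (i : ℕ) : (P.coeff i).natAbs ≤ ht P := by
  by_cases h : i ∈ P.support
  · exact Finset.le_sup (f := fun i => (P.coeff i).natAbs) h
  · have : P.coeff i = 0 := by simpa using h
    simp [this]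

lemma abs_coeff_le_ht (P : ℤ[X]) (i : ℕ) : |(P.coeff i : ℝ)| ≤ (ht P : ℝ) := by
  have h := natAbs_coeff_le_ht P i
  have h2 : ((P.coeff i).natAbs : ℝ) ≤ (ht P : ℝ) := by exact_mod_cast h
  rwa [Nat.cast_natAbs, Int.cast_abs] at h2

lemma ht_le_iff (P : ℤ[X]) (N : ℕ) : ht P ≤ N ↔ ∀ i, (P.coeff i).natAbs ≤ N := by
  constructor
  · intro h i
    exact (natAbs_coeff_le_ht P i).trans h
  · intro h
    exact Finset.sup_le fun i _ => h i

lemma ht_le_real_iff (P : ℤ[X]) (X : ℝ) (hX : 0 ≤ X) :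
    (ht P : ℝ) ≤ X ↔ ∀ i, |(P.coeff i : ℝ)| ≤ X := by
  constructor
  · intro h i
    exact (abs_coeff_le_ht P i).trans h
  · intro h
    have : ht P ≤ ⌊X⌋₊ := by
      rw [ht_le_iff]
      intro i
      apply Nat.le_floor
      have := h i
      rwa [Nat.cast_natAbs, Int.cast_abs]
    exact (Nat.le_floor_iff hX).1 this

lemma one_le_ht {P : ℤ[X]} (hP : P ≠ 0) : 1 ≤ ht P := by
  have h := natAbs_coeff_le_ht P P.natDegree
  have h2 : 1 ≤ (P.coeff P.natDegree).natAbs := by
    rw [Nat.one_le_iff_ne_zero]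
    simpa using hP
  exact h2.trans h

/-- evaluation as a finite sum with real coefficients -/
lemma aeval_eq_sum (ξ : ℝ) (P : ℤ[X]) (n : ℕ) (hP : P.natDegree ≤ n) :
    aeval ξ P = ∑ i ∈ Finset.range (n + 1), (P.coeff i : ℝ) * ξ ^ i := by
  rw [aeval_eq_sum_range' (Nat.lt_succ_of_le hP)]
  simp [zsmul_eq_mul]

/-- trivial bound of a value of an integer polynomial -/
lemma abs_aeval_le (ξ : ℝ) (P : ℤ[X]) (n : ℕ) (hP : P.natDegree ≤ n) :
    |aeval ξ P| ≤ (n + 1) * (max 1 |ξ|) ^ n * ht P := by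
  rw [aeval_eq_sum ξ P n hP]
  have h1 : (1 : ℝ) ≤ max 1 |ξ| := le_max_left _ _
  calc |∑ i ∈ Finset.range (n + 1), (P.coeff i : ℝ) * ξ ^ i|
      ≤ ∑ i ∈ Finset.range (n + 1), |(P.coeff i : ℝ) * ξ ^ i| := Finset.abs_sum_le_sum_abs _ _
    _ ≤ ∑ i ∈ Finset.range (n + 1), (max 1 |ξ|) ^ n * ht P := by
        apply Finset.sum_le_sum
        intro i hi
        rw [abs_mul, abs_pow, mul_comm]
        have hi' : i ≤ n := Nat.lt_succ_iff.1 (Finset.mem_range.1 hi)
        have h2 : |ξ| ^ i ≤ (max 1 |ξ|) ^ n :=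
          (pow_le_pow_left₀ (abs_nonneg _) (le_max_right _ _) i).trans
            (pow_le_pow_right₀ h1 hi')
        exact mul_le_mul h2 (abs_coeff_le_ht P i) (abs_nonneg _) (by positivity)
    _ = (n + 1) * (max 1 |ξ|) ^ n * ht P := by
        rw [Finset.sum_const, Finset.card_range, nsmul_eq_mul]
        push_cast
        ring

/-- Height bound for divisors (Gelfond / Mignotte). -/
lemma ht_factor_le (n : ℕ) : ∃ C : ℝ, 1 ≤ C ∧ ∀ P Q : ℤ[X], Q ∣ P → P ≠ 0 → P.natDegree ≤ n →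
    (ht Q : ℝ) ≤ C * ht P := by
  refine ⟨2 ^ n * (n + 1), ?_, ?_⟩
  · have : (1 : ℝ) ≤ 2 ^ n := one_le_pow₀ (by norm_num)
    nlinarith [this, (Nat.cast_nonneg n : (0 : ℝ) ≤ n)]
  · rintro P Q ⟨g, rfl⟩ hP hdeg
    have hQ0 : Q ≠ 0 := left_ne_zero_of_mul hP
    have hg0 : g ≠ 0 := right_ne_zero_of_mul hP
    have hg : 1 ≤ (g.map (Int.castRingHom ℂ)).mahlerMeasure := one_le_mahlerMeasure_of_ne_zero hg0
    rw [ht_le_real_iff _ _ (by positivity)]
    intro i
    have h1 := norm_coeff_le_choose_mul_mahlerMeasure_of_one_le_mahlerMeasure i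
      (Q.map (Int.castRingHom ℂ)) (g.map (Int.castRingHom ℂ)) hg
    rw [← Polynomial.map_mul] at h1
    have h2 : ‖(Q.map (Int.castRingHom ℂ)).coeff i‖ = |(Q.coeff i : ℝ)| := by
      rw [coeff_map, eq_intCast, Complex.norm_intCast]
    rw [h2] at h1
    have hdegQ : (Q.map (Int.castRingHom ℂ)).natDegree = Q.natDegree :=
      natDegree_map_eq_of_injective (Int.castRingHom ℂ).injective_int Q
    rw [hdegQ] at h1
    have hQn : Q.natDegree ≤ n := by
      rw [natDegree_mul hQ0 hg0] at hdeg; omega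
    have h3 : ((Q.natDegree.choose i : ℕ) : ℝ) ≤ 2 ^ n := by
      have : Q.natDegree.choose i ≤ 2 ^ n :=
        (Nat.choose_le_two_pow _ _).trans (Nat.pow_le_pow_right (by norm_num) hQn)
      exact_mod_cast this
    have h4 : ((Q * g).map (Int.castRingHom ℂ)).mahlerMeasure ≤ (n + 1) * ht (Q * g) := by
      refine (mahlerMeasure_le_sum_norm_coeff _).trans ?_
      rw [Polynomial.sum_over_range' _ (by simp) (n + 1)
        (lt_of_le_of_lt (natDegree_map_le) (Nat.lt_succ_of_le hdeg))]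
      calc ∑ a ∈ Finset.range (n + 1), ‖((Q * g).map (Int.castRingHom ℂ)).coeff a‖
          ≤ ∑ a ∈ Finset.range (n + 1), (ht (Q * g) : ℝ) := by
            apply Finset.sum_le_sum
            intro a _
            rw [coeff_map, eq_intCast, Complex.norm_intCast]
            exact abs_coeff_le_ht _ _
        _ = (n + 1) * ht (Q * g) := by
            rw [Finset.sum_const, Finset.card_range, nsmul_eq_mul]; push_cast; ring
    have h5 : 0 ≤ ((Q * g).map (Int.castRingHom ℂ)).mahlerMeasure := mahlerMeasure_nonneg _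
    calc |(Q.coeff i : ℝ)| ≤ _ := h1
      _ ≤ 2 ^ n * ((n + 1) * ht (Q * g)) := mul_le_mul h3 h4 h5 (by positivity)
      _ = _ := by ring

end Pool.Agent.Helper25.SNum
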