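import Mathlib
import Pool.Agent.Helper25.SNumBasics

set_option autoImplicit false

namespace Pool.Agent.Helper25.SNum

open Polynomial

/-- column operation matrix -/
noncomputable def Umat (ξ : ℝ) (s : ℕ) : Matrix (Fin (s + 2)) (Fin (s + 2)) ℝ :=
  fun k j => if j = 0 then ξ ^ (k : ℕ) else if j = 1 then (k : ℕ) * ξ ^ ((k : ℕ) - 1)
    else if k = j then 1 else 0

lemma det_Umat (ξ : ℝ) (s : ℕ) : (Umat ξ s).det = 1 := by
  rw [Matrix.det_of_isLowerTriangular]
  · apply Finset.prod_eq_one
    intro i _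
    unfold Umat
    by_cases h0 : i = 0
    · subst h0; simp
    · rw [if_neg h0]
      by_cases h1 : i = 1
      · subst h1; simp
      · rw [if_neg h1]; simp
  · intro i j hij
    have hij' : i < j := OrderDual.toDual_lt_toDual.1 hij
    unfold Umat
    have hj0 : j ≠ 0 := by
      intro h; subst h; exact absurd hij' (Fin.not_lt_zero _)
    rw [if_neg hj0]
    by_cases h1 : j = 1
    · subst h1
      rw [if_pos rfl]
      have : (i : ℕ) = 0 := by
        have h2 : (i : ℕ) < 1 := by simpa [Fin.lt_def] using hij'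
        omega
      simp [this]
    · rw [if_neg h1, if_neg (ne_of_lt hij')]

/-- The determinant argument: `s+2` linearly independent integer polynomials of degree `≤ s+1`
cannot all be small, with small value and small derivative at `ξ`. -/
theorem one_le_of_linearIndependent (ξ : ℝ) (s : ℕ) (R : Fin (s + 2) → ℤ[X])
    (hdeg : ∀ i, (R i).natDegree ≤ s + 1)
    (hli : LinearIndependent ℚ (fun i => (R i).map (Int.castRingHom ℚ)))
    (X Y Z : ℝ) (hX : ∀ i, (ht (R i) : ℝ) ≤ X)
    (hY : ∀ i, |aeval ξ (R i)| ≤ Y) (hZ : ∀ i, |aeval ξ (derivative (R i))| ≤ Z) :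
    1 ≤ ((s + 2).factorial : ℝ) * (Y * Z * X ^ s) := by
  classical
  obtain ⟨A, hA⟩ : ∃ A : Matrix (Fin (s + 2)) (Fin (s + 2)) ℤ,
      ∀ i j, A i j = (R i).coeff (j : ℕ) := ⟨fun i j => (R i).coeff j, fun _ _ => rfl⟩
  -- the rational matrix has independent rows
  have hrows : LinearIndependent ℚ (A.map (Int.castRingHom ℚ)).row := by
    have hmem : ∀ i, (R i).map (Int.castRingHom ℚ) ∈ degreeLT ℚ (s + 2) := by
      intro i
      rw [mem_degreeLT]
      refine lt_of_le_of_lt degree_map_le ?_
      exact lt_of_le_of_lt degree_le_natDegree (by exact_mod_cast Nat.lt_succ_of_le (hdeg i))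
    have h1 : LinearIndependent ℚ
        (fun i => (⟨(R i).map (Int.castRingHom ℚ), hmem i⟩ : degreeLT ℚ (s + 2))) := by
      apply LinearIndependent.of_comp (degreeLT ℚ (s + 2)).subtype
      exact hli
    have h2 := h1.map' (degreeLTEquiv ℚ (s + 2)).toLinearMap (LinearEquiv.ker _)
    have h3 : (⇑(degreeLTEquiv ℚ (s + 2)).toLinearMap ∘
        (fun i => (⟨(R i).map (Int.castRingHom ℚ), hmem i⟩ : degreeLT ℚ (s + 2)))) =
        (A.map (Int.castRingHom ℚ)).row := by
      funext i j
      simp [degreeLTEquiv, hA, Matrix.row, Matrix.map_apply]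
    rwa [h3] at h2
  have hunit : IsUnit (A.map (Int.castRingHom ℚ)) :=
    Matrix.linearIndependent_rows_iff_isUnit.1 hrows
  have hdet0 : A.det ≠ 0 := by
    intro h0
    have h1 := (Matrix.isUnit_iff_isUnit_det _).1 hunit
    have h2 : (A.map (Int.castRingHom ℚ)).det = 0 := by
      have := (RingHom.map_det (Int.castRingHom ℚ) A)
      rw [h0] at this
      simpa using this.symm
    rw [h2] at h1
    exact not_isUnit_zero h1
  have hdet1 : (1 : ℝ) ≤ |((A.map (Int.castRingHom ℝ)).det)| := by
    have h1 : (A.map (Int.castRingHom ℝ)).det = ((A.det : ℤ) : ℝ) := by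
      have := (RingHom.map_det (Int.castRingHom ℝ) A)
      simpa using this.symm
    rw [h1, ← Int.cast_abs]
    exact_mod_cast Int.one_le_abs hdet0
  set M : Matrix (Fin (s + 2)) (Fin (s + 2)) ℝ := (A.map (Int.castRingHom ℝ)) * Umat ξ s with hM
  have hMdet : M.det = (A.map (Int.castRingHom ℝ)).det := by
    rw [hM, Matrix.det_mul, det_Umat, mul_one]
  have hX0 : 0 ≤ X := (Nat.cast_nonneg _).trans (hX 0)
  have hY0 : 0 ≤ Y := (abs_nonneg _).trans (hY 0)
  have hZ0 : 0 ≤ Z := (abs_nonneg _).trans (hZ 0)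
  -- entries of M
  have hM0 : ∀ i, M i 0 = aeval ξ (R i) := by
    intro i
    rw [hM, Matrix.mul_apply, aeval_eq_sum ξ (R i) (s + 1) (hdeg i), Finset.sum_range]
    apply Finset.sum_congr rfl
    intro k _
    rw [Matrix.map_apply, hA]
    simp [Umat]
  have hM1 : ∀ i, M i 1 = aeval ξ (derivative (R i)) := by
    intro i
    rw [hM, Matrix.mul_apply]
    have h1 : (derivative (R i)).natDegree ≤ s := by
      have := natDegree_derivative_le (R i)
      have := hdeg i
      omega
    rw [aeval_eq_sum ξ _ s h1, Fin.sum_univ_succ, Finset.sum_range]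
    have h2 : Umat ξ s 0 1 = 0 := by simp [Umat]
    rw [h2, mul_zero, zero_add]
    apply Finset.sum_congr rfl
    intro k _
    rw [coeff_derivative, Matrix.map_apply, hA]
    simp [Umat]
    ring
  have hMj : ∀ i (j : Fin s), M i j.succ.succ = ((R i).coeff ((j : ℕ) + 2) : ℝ) := by
    intro i j
    rw [hM, Matrix.mul_apply, Finset.sum_eq_single j.succ.succ]
    · have h0 : j.succ.succ ≠ (0 : Fin (s + 2)) := Fin.succ_ne_zero _
      have h1 : j.succ.succ ≠ (1 : Fin (s + 2)) := by
        intro h
        have := congrArg Fin.val h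
        simp at this
      rw [Matrix.map_apply, hA]
      simp [Umat, h1]
    · intro k _ hk
      have h0 : j.succ.succ ≠ (0 : Fin (s + 2)) := Fin.succ_ne_zero _
      have h1 : j.succ.succ ≠ (1 : Fin (s + 2)) := by
        intro h
        have := congrArg Fin.val h
        simp at this
      simp [Umat, h1, hk]
    · intro h; exact absurd (Finset.mem_univ _) h
  let cc : Fin (s + 2) → ℝ := Fin.cons Y (Fin.cons Z (fun _ => X))
  have hentry : ∀ i j, |M i j| ≤ cc j := by
    intro i j
    refine Fin.cases ?_ (fun j => ?_) j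
    · rw [hM0]; exact hY i
    · refine Fin.cases ?_ (fun j => ?_) j
      · have : (Fin.succ 0 : Fin (s + 2)) = 1 := rfl
        rw [this, hM1]
        exact hZ i
      · rw [hMj]
        exact (abs_coeff_le_ht _ _).trans (hX i)
  have hprod : ∏ j, cc j = Y * Z * X ^ s := by
    rw [Fin.prod_univ_succ, Fin.prod_univ_succ]
    simp only [cc, Fin.cons_zero, Fin.cons_succ, Finset.prod_const, Finset.card_univ,
      Fintype.card_fin]
    ring
  calc (1 : ℝ) ≤ |M.det| := by rw [hMdet]; exact hdet1
    _ = |∑ σ : Equiv.Perm (Fin (s + 2)), Equiv.Perm.sign σ • ∏ i, M (σ i) i| := by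
        rw [Matrix.det_apply]
    _ ≤ ∑ σ : Equiv.Perm (Fin (s + 2)), |Equiv.Perm.sign σ • ∏ i, M (σ i) i| :=
        Finset.abs_sum_le_sum_abs _ _
    _ ≤ ∑ σ : Equiv.Perm (Fin (s + 2)), ∏ j, cc j := by
        apply Finset.sum_le_sum
        intro σ _
        have h1 : |Equiv.Perm.sign σ • ∏ i, M (σ i) i| = |∏ i, M (σ i) i| := by
          rcases Int.units_eq_one_or (Equiv.Perm.sign σ) with h | h <;> rw [h] <;> simp
        rw [h1, Finset.abs_prod]
        exact Finset.prod_le_prod (fun _ _ => abs_nonneg _) (fun i _ => hentry _ _)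
    _ = ((s + 2).factorial : ℝ) * (Y * Z * X ^ s) := by
        rw [Finset.sum_const, hprod, nsmul_eq_mul, Finset.card_univ, Fintype.card_perm,
          Fintype.card_fin]

end Pool.Agent.Helper25.SNum
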