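import Mathlib

set_option autoImplicit false

namespace Pool.Agent.Helper25.SNum

open Polynomial Module Submodule

variable {K : Type*} [Field K]

instance finiteDimensional_degreeLT (n : ℕ) : FiniteDimensional K (degreeLT K n) :=
  FiniteDimensional.of_injective (degreeLTEquiv K n).toLinearMap (degreeLTEquiv K n).injective

lemma finrank_degreeLT (n : ℕ) : finrank K (degreeLT K n) = n := by
  rw [(degreeLTEquiv K n).finrank_eq]; simp

/-- multiplication by `g` as a linear map -/
noncomputable abbrev mulL (g : K[X]) : K[X] →ₗ[K] K[X] := LinearMap.mulLeft K g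

lemma mulL_injective {g : K[X]} (hg : g ≠ 0) : Function.Injective (mulL g) := by
  intro a b hab
  exact mul_left_cancel₀ hg hab

lemma finrank_map_mulL {g : K[X]} (hg : g ≠ 0) (W : Submodule K K[X]) :
    finrank K (W.map (mulL g)) = finrank K W :=
  (LinearEquiv.finrank_eq (Submodule.equivMapOfInjective (mulL g) (mulL_injective hg) W)).symm

/-- A finite-dimensional space `W ≠ 0` of polynomials with `dim (W + X W) ≤ dim W + 1` is of the
form `g · K[X]_{< dim W}`. -/
theorem eq_map_degreeLT {N : ℕ} (W : Submodule K K[X]) (hWN : W ≤ degreeLT K N) (hW : W ≠ ⊥)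
    (hdim : finrank K (W ⊔ W.map (mulL X) : Submodule K K[X]) ≤ finrank K W + 1) :
    ∃ g : K[X], g ≠ 0 ∧ W = (degreeLT K (finrank K W)).map (mulL g) := by
  classical
  have hfinW : FiniteDimensional K W := Submodule.finiteDimensional_of_le hWN
  have hfinXW : FiniteDimensional K (W.map (mulL X)) := inferInstance
  -- minimal degree
  have hex : ∃ a, ∃ h ∈ W, h ≠ 0 ∧ h.natDegree = a := by
    obtain ⟨h, hh, h0⟩ := Submodule.exists_mem_ne_zero_of_ne_bot hW
    exact ⟨_, h, hh, h0, rfl⟩
  obtain ⟨h, hhW, hh0, hha⟩ := Nat.find_spec hex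
  set a := Nat.find hex with ha
  have hmin : ∀ f ∈ W, f ≠ 0 → a ≤ f.natDegree := fun f hf hf0 =>
    Nat.find_min' hex ⟨f, hf, hf0, rfl⟩
  -- degrees in W are < N
  have hdegN : ∀ f ∈ W, f ≠ 0 → f.natDegree < N := by
    intro f hf hf0
    have := mem_degreeLT.1 (hWN hf)
    exact (natDegree_lt_iff_degree_lt hf0).2 this
  -- first power outside
  have hex2 : ∃ i, X ^ i * h ∉ W := by
    refine ⟨N, fun hmem => ?_⟩
    have := hdegN _ hmem (mul_ne_zero (pow_ne_zero _ X_ne_zero) hh0)
    rw [natDegree_mul (pow_ne_zero _ X_ne_zero) hh0, natDegree_X_pow] at this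
    omega
  set s := Nat.find hex2 with hs
  have hsW : X ^ s * h ∉ W := Nat.find_spec hex2
  have hs_lt : ∀ i < s, X ^ i * h ∈ W := fun i hi => by
    by_contra hcon
    exact Nat.find_min hex2 hi hcon
  have hs1 : 1 ≤ s := by
    rcases Nat.eq_zero_or_pos s with h0 | h0
    · exfalso; apply hsW; rw [h0]; simpa using hhW
    · exact h0
  -- W ⊔ XW = W ⊔ span {X^s h}
  have hmemX : X ^ s * h ∈ W.map (mulL X) := by
    refine ⟨X ^ (s - 1) * h, hs_lt _ (by omega), ?_⟩
    simp only [mulL, LinearMap.mulLeft_apply]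
    rw [← mul_assoc, ← pow_succ']
    congr 2
    omega
  set U := W ⊔ span K {X ^ s * h} with hU
  have hUle : U ≤ W ⊔ W.map (mulL X) := by
    apply sup_le le_sup_left
    rw [span_singleton_le_iff_mem]
    exact (le_sup_right : W.map (mulL X) ≤ _) hmemX
  have hltU : W < U := by
    refine lt_of_le_of_ne le_sup_left ?_
    intro heq
    apply hsW
    rw [heq]
    exact (le_sup_right : span K {X ^ s * h} ≤ U) (mem_span_singleton_self _)
  have hUrank : finrank K W + 1 ≤ finrank K U := Submodule.finrank_lt_finrank_of_lt hltU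
  have hUeq : U = W ⊔ W.map (mulL X) :=
    Submodule.eq_of_le_of_finrank_le hUle (hdim.trans hUrank)
  -- maximal degree
  have hexD : ∃ F ∈ W, F ≠ 0 ∧ ∀ f ∈ W, f ≠ 0 → f.natDegree ≤ F.natDegree := by
    have hbdd : ∃ D, ∀ f ∈ W, f ≠ 0 → f.natDegree ≤ D := ⟨N, fun f hf hf0 => (hdegN f hf hf0).le⟩
    have hspec := Nat.find_spec hbdd
    by_contra hcon
    push Not at hcon
    rcases Nat.eq_zero_or_pos (Nat.find hbdd) with h0 | h0
    · obtain ⟨f, hf, hf0, hlt⟩ := hcon h hhW hh0
      have := hspec f hf hf0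
      omega
    · have hmin' := Nat.find_min hbdd (m := Nat.find hbdd - 1) (by omega)
      push Not at hmin'
      obtain ⟨f, hf, hf0, hlt⟩ := hmin'
      obtain ⟨f', hf', hf0', hlt'⟩ := hcon f hf hf0
      have := hspec f' hf' hf0'
      omega
  obtain ⟨F, hFW, hF0, hFmax⟩ := hexD
  set D := F.natDegree with hD
  -- X * F ∈ U
  have hXF : X * F ∈ U := by
    rw [hUeq]
    exact (le_sup_right : W.map (mulL X) ≤ _) ⟨F, hFW, rfl⟩
  have hDle : D + 1 ≤ a + s := by
    obtain ⟨w, hw, z, hz, hwz⟩ := Submodule.mem_sup.1 hXF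
    obtain ⟨c, rfl⟩ := mem_span_singleton.1 hz
    have h1 : (X * F).natDegree = D + 1 := by
      rw [natDegree_mul X_ne_zero hF0, natDegree_X]; omega
    have h2 : w.natDegree ≤ D := by
      by_cases hw0 : w = 0
      · simp [hw0]
      · exact hFmax w hw hw0
    have h3 : (c • (X ^ s * h)).natDegree ≤ a + s := by
      refine (natDegree_smul_le _ _).trans ?_
      rw [natDegree_mul (pow_ne_zero _ X_ne_zero) hh0, natDegree_X_pow, hha]
      omega
    have h4 := natDegree_add_le w (c • (X ^ s * h))
    rw [hwz, h1] at h4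
    rcases le_max_iff.1 h4 with h5 | h5
    · omega
    · exact h5.trans h3
  -- finrank W + a ≤ D + 1
  have haD : a ≤ D := hmin F hFW hF0
  have hrank : finrank K W + a ≤ D + 1 := by
    have hdisj : W ⊓ degreeLT K a = ⊥ := by
      rw [Submodule.eq_bot_iff]
      rintro x ⟨hx1, hx2⟩
      by_contra hx0
      have h1 := hmin x hx1 hx0
      have h2 := (natDegree_lt_iff_degree_lt hx0).2 (mem_degreeLT.1 hx2)
      omega
    have h1 := Submodule.finrank_sup_add_finrank_inf_eq W (degreeLT K a)
    rw [hdisj, finrank_bot, finrank_degreeLT] at h1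
    have h2 : W ⊔ degreeLT K a ≤ degreeLT K (D + 1) := by
      apply sup_le
      · intro x hx
        rw [mem_degreeLT]
        by_cases hx0 : x = 0
        · simp [hx0]
        · exact (natDegree_lt_iff_degree_lt hx0).1 (Nat.lt_succ_of_le (hFmax x hx hx0))
      · exact degreeLT_mono (by omega)
    have h3 := Submodule.finrank_mono h2
    rw [finrank_degreeLT] at h3
    omega
  -- conclude
  have hle : (degreeLT K s).map (mulL h) ≤ W := by
    rw [degreeLT_eq_span_X_pow, Submodule.map_span_le]
    intro m hm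
    simp only [Finset.coe_image, Finset.coe_range, Set.mem_image, Set.mem_Iio] at hm
    obtain ⟨i, hi, rfl⟩ := hm
    simp only [mulL, LinearMap.mulLeft_apply]
    rw [mul_comm]
    exact hs_lt i hi
  have hrankeq : finrank K ((degreeLT K s).map (mulL h)) = s := by
    rw [finrank_map_mulL hh0, finrank_degreeLT]
  have hWs : finrank K W ≤ s := by omega
  have heq : (degreeLT K s).map (mulL h) = W :=
    Submodule.eq_of_le_of_finrank_le hle (by rw [hrankeq]; exact hWs)
  have hs2 : finrank K W = s := by rw [← heq, hrankeq]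
  exact ⟨h, hh0, by rw [hs2, heq]⟩

/-- Growth lemma: if `V n` is a sequence of spaces of polynomials of degree `≤ n` with
`dim V m ≥ m + 1 - c`, then for some `n ∈ [m, m+c]` the dimension grows by at most one. -/
theorem exists_small_growth (d : ℕ → ℕ) (m c : ℕ) (hd : ∀ n, d n ≤ n + 1)
    (hm : m + 1 ≤ d m + c) : ∃ n, m ≤ n ∧ n ≤ m + c ∧ d (n + 1) ≤ d n + 1 ∧
      (m + 1 ≤ d n + c) := by
  by_contra hcon
  push Not at hcon
  have key : ∀ j, j ≤ c + 1 → m + 1 + 2 * j ≤ d (m + j) + c := by
    intro j
    induction j with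
    | zero => intro _; simpa using hm
    | succ j ih =>
      intro hj
      have h1 := ih (by omega)
      by_contra h2
      have h3 := hcon (m + j) (by omega) (by omega)
      have h4 : d (m + j + 1) ≤ d (m + j) + 1 := by
        have : m + (j + 1) = m + j + 1 := by ring
        rw [this] at h2
        omega
      have h5 := h3 h4
      omega
  have h1 := key (c + 1) le_rfl
  have h2 := hd (m + (c + 1))
  omega

end Pool.Agent.Helper25.SNum
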