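import Mathlib
import Pool.Agent.Helper25.SNumBasics

set_option autoImplicit false

namespace Pool.Agent.Helper25.SNum

open Polynomial

lemma pow_remainder (ξ h : ℝ) (hh : |h| ≤ 1) (k : ℕ) :
    |(ξ + h) ^ k - ξ ^ k - k * h * ξ ^ (k - 1)| ≤ (k : ℝ) ^ 2 * (|ξ| + 1) ^ k * h ^ 2 := by
  induction k with
  | zero => simp
  | succ k ih =>
    set B := |ξ| + 1 with hB
    have hB1 : 1 ≤ B := by rw [hB]; have := abs_nonneg ξ; linarith
    have hξB : |ξ| ≤ B := by rw [hB]; linarith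
    have hξh : |ξ + h| ≤ B := (abs_add_le _ _).trans (by rw [hB]; linarith)
    have e : (ξ + h) ^ (k + 1) - ξ ^ (k + 1) - ((k + 1 : ℕ) : ℝ) * h * ξ ^ (k + 1 - 1) =
        (ξ + h) * ((ξ + h) ^ k - ξ ^ k - k * h * ξ ^ (k - 1)) + k * h ^ 2 * ξ ^ (k - 1) := by
      rcases k with _ | k
      · simp
      · simp only [Nat.add_sub_cancel]
        push_cast
        ring
    rw [e]
    have h1 : |(ξ + h) * ((ξ + h) ^ k - ξ ^ k - k * h * ξ ^ (k - 1))| ≤
        B * ((k : ℝ) ^ 2 * B ^ k * h ^ 2) := by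
      rw [abs_mul]
      exact mul_le_mul hξh ih (abs_nonneg _) (by linarith)
    have h2 : |(k : ℝ) * h ^ 2 * ξ ^ (k - 1)| ≤ k * h ^ 2 * B ^ (k + 1) := by
      rw [abs_mul, abs_mul, abs_pow ξ, Nat.abs_cast, abs_of_nonneg (sq_nonneg h)]
      apply mul_le_mul_of_nonneg_left _ (by positivity)
      exact (pow_le_pow_left₀ (abs_nonneg _) hξB _).trans (pow_le_pow_right₀ hB1 (by omega))
    refine (abs_add_le _ _).trans ((add_le_add h1 h2).trans ?_)
    have h3 : 0 ≤ B ^ (k + 1) * h ^ 2 := by positivity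
    have h4 : B * ((k : ℝ) ^ 2 * B ^ k * h ^ 2) + k * h ^ 2 * B ^ (k + 1) =
        ((k : ℝ) ^ 2 + k) * (B ^ (k + 1) * h ^ 2) := by ring
    rw [h4]
    push_cast
    have hk : (0 : ℝ) ≤ k := Nat.cast_nonneg k
    nlinarith

/-- second order Taylor estimate for integer polynomials -/
lemma taylor_estimate (ξ : ℝ) (n : ℕ) : ∃ M : ℝ, 1 ≤ M ∧ ∀ R : ℤ[X], R.natDegree ≤ n →
    ∀ h : ℝ, |h| ≤ 1 →
    |aeval (ξ + h) R - aeval ξ R - h * aeval ξ (derivative R)| ≤ M * ht R * h ^ 2 := by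
  have hB1 : 1 ≤ |ξ| + 1 := by have := abs_nonneg ξ; linarith
  refine ⟨(n + 1) * (n ^ 2 * (|ξ| + 1) ^ n) + 1, ?_, ?_⟩
  · have : (0 : ℝ) ≤ (n + 1) * (n ^ 2 * (|ξ| + 1) ^ n) := by positivity
    linarith
  · intro R hR h hh
    have hder : h * aeval ξ (derivative R) =
        ∑ i ∈ Finset.range (n + 1), (R.coeff i : ℝ) * (i * h * ξ ^ (i - 1)) := by
      have h1 : (derivative R).natDegree ≤ n :=
        (natDegree_derivative_le R).trans (by omega)
      rw [aeval_eq_sum ξ _ n h1, Finset.sum_range_succ]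
      have h2 : (derivative R).coeff n = 0 := by
        rw [coeff_derivative, coeff_eq_zero_of_natDegree_lt (by omega)]; simp
      rw [h2, Finset.sum_range_succ']
      simp only [Int.cast_zero, zero_mul, add_zero, CharP.cast_eq_zero, mul_zero, Finset.mul_sum]
      apply Finset.sum_congr rfl
      intro i _
      rw [coeff_derivative, Nat.add_sub_cancel]
      push_cast
      ring
    rw [hder, aeval_eq_sum ξ R n hR, aeval_eq_sum (ξ + h) R n hR, ← Finset.sum_sub_distrib,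
      ← Finset.sum_sub_distrib]
    calc |∑ i ∈ Finset.range (n + 1), ((R.coeff i : ℝ) * (ξ + h) ^ i - (R.coeff i : ℝ) * ξ ^ i
          - (R.coeff i : ℝ) * (i * h * ξ ^ (i - 1)))|
        ≤ ∑ i ∈ Finset.range (n + 1), |((R.coeff i : ℝ) * (ξ + h) ^ i - (R.coeff i : ℝ) * ξ ^ i
          - (R.coeff i : ℝ) * (i * h * ξ ^ (i - 1)))| := Finset.abs_sum_le_sum_abs _ _
      _ ≤ ∑ i ∈ Finset.range (n + 1), (ht R : ℝ) * ((n : ℝ) ^ 2 * (|ξ| + 1) ^ n * h ^ 2) := by
          apply Finset.sum_le_sum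
          intro i hi
          have hi' : i ≤ n := Nat.lt_succ_iff.1 (Finset.mem_range.1 hi)
          have e : (R.coeff i : ℝ) * (ξ + h) ^ i - (R.coeff i : ℝ) * ξ ^ i
              - (R.coeff i : ℝ) * (i * h * ξ ^ (i - 1)) =
              (R.coeff i : ℝ) * ((ξ + h) ^ i - ξ ^ i - i * h * ξ ^ (i - 1)) := by ring
          rw [e, abs_mul]
          apply mul_le_mul (abs_coeff_le_ht R i) _ (abs_nonneg _) (Nat.cast_nonneg _)
          refine (pow_remainder ξ h hh i).trans ?_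
          apply mul_le_mul_of_nonneg_right _ (sq_nonneg h)
          apply mul_le_mul _ (pow_le_pow_right₀ hB1 hi') (by positivity) (by positivity)
          have : (i : ℝ) ≤ n := by exact_mod_cast hi'
          exact pow_le_pow_left₀ (Nat.cast_nonneg i) this 2
      _ = (n + 1) * (n ^ 2 * (|ξ| + 1) ^ n) * ht R * h ^ 2 := by
          rw [Finset.sum_const, Finset.card_range, nsmul_eq_mul]; push_cast; ring
      _ ≤ ((n + 1) * (n ^ 2 * (|ξ| + 1) ^ n) + 1) * ht R * h ^ 2 := by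
          apply mul_le_mul_of_nonneg_right _ (sq_nonneg h)
          apply mul_le_mul_of_nonneg_right _ (Nat.cast_nonneg _)
          linarith

/-- real root near a point where the value is small compared to the derivative -/
theorem exists_root_near (ξ : ℝ) (n : ℕ) : ∃ M : ℝ, 1 ≤ M ∧ ∀ R : ℤ[X], R.natDegree ≤ n →
    ∀ y z : ℝ, 0 ≤ y → 0 < z → |aeval ξ R| ≤ y → z ≤ |aeval ξ (derivative R)| →
    2 * y ≤ z → M * ht R * y ≤ z ^ 2 → ∃ α : ℝ, aeval α R = 0 ∧ |ξ - α| ≤ 2 * y / z := by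
  obtain ⟨M, hM1, hM⟩ := taylor_estimate ξ n
  refine ⟨4 * M, by linarith, ?_⟩
  intro R hR y z hy hz hRy hRz hyz hMz
  set h := 2 * y / z with hh
  have hh0 : 0 ≤ h := by positivity
  have hh1 : h ≤ 1 := by rw [hh, div_le_one hz]; exact hyz
  have hhz : h * z = 2 * y := by rw [hh]; field_simp
  set w := aeval ξ (derivative R) with hw
  have hwh : 2 * y ≤ |w| * h := by nlinarith
  have hq : M * ht R * h ^ 2 ≤ |w| * h / 2 := by
    have h1 : 2 * (M * ht R) * h ≤ z := by
      rw [hh, mul_div_assoc', div_le_iff₀ hz]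
      nlinarith
    have h2 : 2 * (M * ht R) * h ≤ |w| := h1.trans hRz
    nlinarith
  have hplus := hM R hR h (by rw [abs_of_nonneg hh0]; exact hh1)
  have hminus := hM R hR (-h) (by rw [abs_neg, abs_of_nonneg hh0]; exact hh1)
  rw [← hw] at hplus hminus
  have e1 : (-h) ^ 2 = h ^ 2 := by ring
  rw [e1] at hminus
  have hcont : Continuous (fun x : ℝ => aeval x R) := by
    simpa [aeval_def, eval₂_eq_eval_map] using (R.map (algebraMap ℤ ℝ)).continuous
  have hplus' := abs_le.1 hplus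
  have hminus' := abs_le.1 hminus
  have hRy' := abs_le.1 hRy
  have hex : (0 : ℝ) ∈ Set.uIcc (aeval (ξ + -h) R) (aeval (ξ + h) R) := by
    rcases le_total 0 w with hw0 | hw0
    · rw [abs_of_nonneg hw0] at hwh hq
      rw [Set.mem_uIcc]
      left
      constructor <;> nlinarith
    · rw [abs_of_nonpos hw0] at hwh hq
      rw [Set.mem_uIcc]
      right
      constructor <;> nlinarith
  have hivt := intermediate_value_uIcc (a := ξ + -h) (b := ξ + h)
    (f := fun x : ℝ => aeval x R) hcont.continuousOn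
  obtain ⟨α, hα, hα0⟩ := hivt hex
  refine ⟨α, hα0, ?_⟩
  rw [Set.uIcc_of_le (by linarith)] at hα
  rw [abs_le]
  constructor <;> linarith [hα.1, hα.2]

/-- Lipschitz estimate: `|Q(ξ)| ≤ C · ht Q · |ξ - α|` when `Q(α) = 0` and `|ξ - α| ≤ 1`. -/
theorem abs_aeval_le_of_root (ξ : ℝ) (n : ℕ) : ∃ C : ℝ, 1 ≤ C ∧ ∀ Q : ℤ[X], Q.natDegree ≤ n →
    ∀ α : ℝ, aeval α Q = 0 → |ξ - α| ≤ 1 → |aeval ξ Q| ≤ C * ht Q * |ξ - α| := by
  obtain ⟨M, hM1, hM⟩ := taylor_estimate ξ n
  set D : ℝ := (n + 1) * (max 1 |ξ|) ^ n * (n + 1) with hD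
  have hD0 : 0 ≤ D := by positivity
  refine ⟨M + D, by linarith, ?_⟩
  intro Q hQ α hα hξα
  have h1 := hM Q hQ (α - ξ) (by rw [abs_sub_comm]; exact hξα)
  rw [add_sub_cancel, hα] at h1
  -- bound of the derivative
  have h2 : |aeval ξ (derivative Q)| ≤ D * ht Q := by
    have h3 : (derivative Q).natDegree ≤ n := (natDegree_derivative_le Q).trans (by omega)
    refine (abs_aeval_le ξ _ n h3).trans ?_
    have h4 : (ht (derivative Q) : ℝ) ≤ (n + 1) * ht Q := by
      rw [ht_le_real_iff _ _ (by positivity)]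
      intro i
      rw [coeff_derivative]
      push_cast
      rw [abs_mul]
      by_cases hi : i + 1 ≤ n
      · have h5 : |((i : ℝ) + 1)| ≤ n + 1 := by
          rw [abs_of_nonneg (by positivity)]
          have : (i : ℝ) + 1 ≤ n := by exact_mod_cast hi
          linarith
        rw [mul_comm]
        exact mul_le_mul h5 (abs_coeff_le_ht _ _) (abs_nonneg _) (by positivity)
      · have : Q.coeff (i + 1) = 0 := coeff_eq_zero_of_natDegree_lt (by omega)
        rw [this]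
        simp
        positivity
    rw [hD]
    calc ((n : ℝ) + 1) * (max 1 |ξ|) ^ n * ht (derivative Q) ≤
        ((n : ℝ) + 1) * (max 1 |ξ|) ^ n * ((n + 1) * ht Q) :=
          mul_le_mul_of_nonneg_left h4 (by positivity)
      _ = _ := by ring
  have h6 : |aeval ξ Q| ≤ |aeval ξ Q + (α - ξ) * aeval ξ (derivative Q)| +
      |(α - ξ) * aeval ξ (derivative Q)| := by
    have := abs_sub_abs_le_abs_sub (aeval ξ Q + (α - ξ) * aeval ξ (derivative Q))
      ((α - ξ) * aeval ξ (derivative Q))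
    have h7 := abs_sub (aeval ξ Q + (α - ξ) * aeval ξ (derivative Q))
      ((α - ξ) * aeval ξ (derivative Q))
    simpa using h7
  have h8 : |aeval ξ Q + (α - ξ) * aeval ξ (derivative Q)| ≤ M * ht Q * (α - ξ) ^ 2 := by
    have : |0 - aeval ξ Q - (α - ξ) * aeval ξ (derivative Q)| =
        |aeval ξ Q + (α - ξ) * aeval ξ (derivative Q)| := by
      rw [← abs_neg]; congr 1; ring
    rw [← this]; exact h1
  have h9 : (α - ξ) ^ 2 ≤ |ξ - α| := by
    rw [← sq_abs, abs_sub_comm]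
    have := abs_nonneg (ξ - α)
    nlinarith
  have h10 : |(α - ξ) * aeval ξ (derivative Q)| ≤ |ξ - α| * (D * ht Q) := by
    rw [abs_mul, abs_sub_comm]
    exact mul_le_mul_of_nonneg_left h2 (abs_nonneg _)
  have h11 : M * ht Q * (α - ξ) ^ 2 ≤ M * ht Q * |ξ - α| :=
    mul_le_mul_of_nonneg_left h9 (by positivity)
  calc |aeval ξ Q| ≤ M * ht Q * |ξ - α| + |ξ - α| * (D * ht Q) := by linarith
    _ = (M + D) * ht Q * |ξ - α| := by ring

end Pool.Agent.Helper25.SNum
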