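import Mathlib

set_option autoImplicit false

namespace Pool.Agent.Helper25.SNum

open Module MeasureTheory Metric Set Function
open scoped ENNReal

/-- packing: a `ρ`-separated finite set in the unit ball of a real normed space of dimension `r`
has at most `(1+2/ρ)^r` elements -/
theorem card_le_of_separated {E : Type*} [NormedAddCommGroup E] [NormedSpace ℝ E]
    [FiniteDimensional ℝ E] (s : Finset E) (t : ℝ) (ht : 0 < t) (hs : ∀ c ∈ s, ‖c‖ ≤ 1)
    (h : ∀ c ∈ s, ∀ d ∈ s, c ≠ d → t ≤ ‖c - d‖) :
    (s.card : ℝ) ≤ (1 + 2 / t) ^ finrank ℝ E := by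
  borelize E
  let μ : Measure E := Measure.addHaar
  let δ : ℝ := t / 2
  let ρ : ℝ := 1 + t / 2
  have ρpos : 0 < ρ := by positivity
  have δpos : 0 < δ := by positivity
  set A := ⋃ c ∈ s, ball (c : E) δ with hA
  have D : Set.Pairwise (s : Set E) (Disjoint on fun c => ball (c : E) δ) := by
    rintro c hc d hd hcd
    apply ball_disjoint_ball
    rw [dist_eq_norm]
    have := h c hc d hd hcd
    simp only [δ]
    linarith
  have A_subset : A ⊆ ball (0 : E) ρ := by
    refine iUnion₂_subset fun x hx => ?_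
    apply ball_subset_ball'
    calc
      δ + dist x 0 ≤ δ + 1 := by rw [dist_zero_right]; exact add_le_add le_rfl (hs x hx)
      _ = ρ := by simp only [δ, ρ]; ring
  have I :
    (s.card : ℝ≥0∞) * ENNReal.ofReal (δ ^ finrank ℝ E) * μ (ball 0 1) ≤
      ENNReal.ofReal (ρ ^ finrank ℝ E) * μ (ball 0 1) :=
    calc
      (s.card : ℝ≥0∞) * ENNReal.ofReal (δ ^ finrank ℝ E) * μ (ball 0 1) = μ A := by
        rw [hA, measure_biUnion_finset D fun c _ => measurableSet_ball]
        simp only [μ.addHaar_ball_of_pos _ δpos]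
        simp only [Finset.sum_const, nsmul_eq_mul, mul_assoc]
      _ ≤ μ (ball (0 : E) ρ) := measure_mono A_subset
      _ = ENNReal.ofReal (ρ ^ finrank ℝ E) * μ (ball 0 1) := by
        simp only [μ.addHaar_ball_of_pos _ ρpos]
  have J : (s.card : ℝ≥0∞) * ENNReal.ofReal (δ ^ finrank ℝ E) ≤ ENNReal.ofReal (ρ ^ finrank ℝ E) :=
    (ENNReal.mul_le_mul_iff_left (measure_ball_pos _ _ zero_lt_one).ne' measure_ball_lt_top.ne).1 I
  have K : (s.card : ℝ) * δ ^ finrank ℝ E ≤ ρ ^ finrank ℝ E := by
    have := ENNReal.toReal_le_of_le_ofReal (pow_nonneg ρpos.le _) J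
    rwa [ENNReal.toReal_mul, ENNReal.toReal_natCast,
      ENNReal.toReal_ofReal (pow_nonneg δpos.le _)] at this
  have e : (1 + 2 / t) = ρ / δ := by
    simp only [δ, ρ]; field_simp; ring
  rw [e, div_pow, le_div_iff₀ (pow_pos δpos _)]
  exact K

/-- The real span of the image of a set under a `ℚ`-linear map has real dimension at most the
rational dimension of the span of the set. -/
theorem finrank_span_image_le {M E : Type*} [AddCommGroup M] [Module ℚ M]
    [NormedAddCommGroup E] [NormedSpace ℝ E] [Module ℚ E] (φ : M →ₗ[ℚ] E) (s : Set M)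
    [FiniteDimensional ℚ (Submodule.span ℚ s)] :
    finrank ℝ (Submodule.span ℝ (φ '' s)) ≤ finrank ℚ (Submodule.span ℚ s) ∧
    FiniteDimensional ℝ (Submodule.span ℝ (φ '' s)) := by
  classical
  let b := Module.finBasis ℚ (Submodule.span ℚ s)
  have hle : Submodule.span ℝ (φ '' s) ≤
      Submodule.span ℝ (Set.range (fun i => φ ((b i : Submodule.span ℚ s) : M))) := by
    rw [Submodule.span_le]
    rintro _ ⟨x, hx, rfl⟩
    have hx' : x ∈ Submodule.span ℚ s := Submodule.subset_span hx
    have h1 : x = ∑ i, (b.repr ⟨x, hx'⟩ i) • ((b i : Submodule.span ℚ s) : M) := by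
      have h2 := congrArg (Submodule.span ℚ s).subtype (b.sum_repr ⟨x, hx'⟩)
      rw [map_sum] at h2
      simp only [map_smul, Submodule.subtype_apply] at h2
      exact h2.symm
    rw [h1, map_sum]
    apply Submodule.sum_mem
    intro i _
    rw [map_smul, ← Rat.cast_smul_eq_qsmul ℝ]
    exact Submodule.smul_mem _ _ (Submodule.subset_span ⟨i, rfl⟩)
  have hfin : FiniteDimensional ℝ
      (Submodule.span ℝ (Set.range (fun i => φ ((b i : Submodule.span ℚ s) : M)))) :=
    FiniteDimensional.span_of_finite ℝ (Set.finite_range _)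
  constructor
  · calc finrank ℝ (Submodule.span ℝ (φ '' s)) ≤ finrank ℝ (Submodule.span ℝ
        (Set.range (fun i => φ ((b i : Submodule.span ℚ s) : M)))) :=
          Submodule.finrank_mono hle
      _ ≤ Fintype.card (Fin (finrank ℚ (Submodule.span ℚ s))) := finrank_range_le_card _
      _ = _ := Fintype.card_fin _
  · exact Submodule.finiteDimensional_of_le hle

end Pool.Agent.Helper25.SNum
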