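import Mathlib
import Pool.Agent.Helper25.SNumBasics

set_option autoImplicit false

namespace Pool.Agent.Helper25.SNum

open Polynomial

/-- polynomial with given coefficients -/
noncomputable def mkPoly (m : ℕ) (f : Fin (m + 1) → ℤ) : ℤ[X] :=
  ∑ i : Fin (m + 1), monomial (i : ℕ) (f i)

lemma coeff_mkPoly (m : ℕ) (f : Fin (m + 1) → ℤ) (i : ℕ) :
    (mkPoly m f).coeff i = if h : i < m + 1 then f ⟨i, h⟩ else 0 := by
  unfold mkPoly
  rw [finsetSum_coeff]
  simp only [coeff_monomial]
  by_cases h : i < m + 1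
  · rw [dif_pos h, Finset.sum_eq_single (⟨i, h⟩ : Fin (m + 1))]
    · simp
    · intro b _ hb
      rw [if_neg]
      intro hbi
      exact hb (Fin.ext hbi)
    · intro hni
      exact absurd (Finset.mem_univ _) hni
  · rw [dif_neg h]
    apply Finset.sum_eq_zero
    intro b _
    rw [if_neg]
    intro hb
    exact h (hb ▸ b.2)

lemma natDegree_mkPoly_le (m : ℕ) (f : Fin (m + 1) → ℤ) : (mkPoly m f).natDegree ≤ m := by
  rw [natDegree_le_iff_coeff_eq_zero]
  intro i hi
  rw [coeff_mkPoly, dif_neg (by omega)]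

lemma mkPoly_injective (m : ℕ) : Function.Injective (mkPoly m) := by
  intro f g hfg
  funext i
  have h := congrArg (fun P => coeff P (i : ℕ)) hfg
  simp only [coeff_mkPoly, dif_pos i.2] at h
  exact h

/-- Pigeonhole: there are many integer polynomials of degree `≤ m`, height `≤ X` with
`|P(ξ)| ≤ Y`. -/
theorem exists_many (ξ : ℝ) (m : ℕ) : ∃ A : ℝ, 1 ≤ A ∧ ∀ X Y : ℝ, 1 ≤ X → 0 < Y → Y ≤ X →
    ∃ S : Finset ℤ[X], (∀ P ∈ S, P.natDegree ≤ m ∧ (ht P : ℝ) ≤ X ∧ |aeval ξ P| ≤ Y) ∧
      X ^ m * Y ≤ A * S.card := by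
  set B : ℝ := (m + 1) * (max 1 |ξ|) ^ m with hB
  have hB1 : 1 ≤ B := by
    have h1 : (1 : ℝ) ≤ (max 1 |ξ|) ^ m := one_le_pow₀ (le_max_left _ _)
    have h2 : (1 : ℝ) ≤ (m + 1 : ℝ) := by
      have : (0 : ℝ) ≤ m := Nat.cast_nonneg m
      linarith
    rw [hB]
    nlinarith
  refine ⟨2 * B + 5, by linarith, ?_⟩
  intro X Y hX hY hYX
  classical
  set N := ⌊X⌋₊ with hN
  have hNX : (N : ℝ) ≤ X := Nat.floor_le (by linarith)
  have hXN : X < N + 1 := Nat.lt_floor_add_one X
  -- the value map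
  let toP : (Fin (m + 1) → Fin (N + 1)) → ℤ[X] := fun f => mkPoly m (fun i => ((f i : ℕ) : ℤ))
  let g : (Fin (m + 1) → Fin (N + 1)) → ℤ := fun f => ⌊aeval ξ (toP f) / Y⌋
  set L : ℤ := ⌈B * X / Y⌉ with hL
  have hLpos : 0 ≤ B * X / Y := by positivity
  have hL0 : 0 ≤ L := Int.ceil_nonneg hLpos
  have hht : ∀ f, (ht (toP f) : ℝ) ≤ X := by
    intro f
    have : ht (toP f) ≤ N := by
      rw [ht_le_iff]
      intro i
      simp only [toP, coeff_mkPoly]
      split_ifs with h
      · simp only [Int.natAbs_natCast]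
        exact Nat.lt_succ_iff.1 (f ⟨i, h⟩).2
      · simp
    have h2 : (ht (toP f) : ℝ) ≤ N := by exact_mod_cast this
    exact h2.trans hNX
  have hval : ∀ f, |aeval ξ (toP f)| ≤ B * X := by
    intro f
    have h1 := abs_aeval_le ξ (toP f) m (natDegree_mkPoly_le m _)
    refine h1.trans ?_
    rw [← hB]
    exact mul_le_mul_of_nonneg_left (hht f) (by linarith)
  have hmaps : ∀ f ∈ (Finset.univ : Finset (Fin (m + 1) → Fin (N + 1))),
      g f ∈ Finset.Icc (-(L + 1)) L := by
    intro f _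
    have h1 := abs_le.1 (hval f)
    have h2 : aeval ξ (toP f) / Y ≤ B * X / Y := by
      apply div_le_div_of_nonneg_right h1.2 hY.le
    have h3 : -(B * X / Y) ≤ aeval ξ (toP f) / Y := by
      rw [← neg_div]
      apply div_le_div_of_nonneg_right h1.1 hY.le
    rw [Finset.mem_Icc]
    constructor
    · rw [Int.le_floor]
      push_cast
      have := Int.le_ceil (B * X / Y)
      rw [← hL] at this
      linarith
    · have h4 : g f ≤ ⌊B * X / Y⌋ := Int.floor_le_floor h2
      exact h4.trans (Int.floor_le_ceil _)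
  have hcardt : ((Finset.Icc (-(L + 1)) L).card : ℝ) ≤ (2 * B + 5) * X / Y := by
    rw [Int.card_Icc]
    have h1 : ((L + 1 - -(L + 1)).toNat : ℝ) = ((L + 1 - -(L + 1) : ℤ) : ℝ) := by
      have : 0 ≤ (L + 1 - -(L + 1)) := by linarith
      have h2 := Int.toNat_of_nonneg this
      exact_mod_cast congrArg (fun z : ℤ => (z : ℝ)) h2
    rw [h1]
    push_cast
    have h2 : (L : ℝ) < B * X / Y + 1 := Int.ceil_lt_add_one _
    have h3 : 1 ≤ X / Y := by rw [le_div_iff₀ hY]; linarith
    have h4 : (2 * B + 5) * X / Y = 2 * (B * X / Y) + 5 * (X / Y) := by ring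
    rw [h4]
    nlinarith
  set b : ℝ := X ^ m * Y / (2 * B + 5) with hb
  have hbpos : 0 < b := by positivity
  have hcount : ((Finset.Icc (-(L + 1)) L).card) • b ≤
      ((Finset.univ : Finset (Fin (m + 1) → Fin (N + 1))).card : ℝ) := by
    rw [nsmul_eq_mul]
    have h1 : ((Finset.univ : Finset (Fin (m + 1) → Fin (N + 1))).card : ℝ) =
        ((N : ℝ) + 1) ^ (m + 1) := by
      simp
    rw [h1]
    calc ((Finset.Icc (-(L + 1)) L).card : ℝ) * b ≤ ((2 * B + 5) * X / Y) * b :=
          mul_le_mul_of_nonneg_right hcardt hbpos.le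
      _ = X ^ (m + 1) := by
          rw [hb]
          have h5 : (2 * B + 5) ≠ 0 := by positivity
          field_simp
          ring
      _ ≤ ((N : ℝ) + 1) ^ (m + 1) := pow_le_pow_left₀ (by linarith) hXN.le _
  obtain ⟨y, hy, hfib⟩ := Finset.exists_le_card_fiber_of_nsmul_le_card_of_maps_to
    hmaps ⟨0, by rw [Finset.mem_Icc]; constructor <;> linarith⟩ hcount
  set Fb := (Finset.univ.filter (fun f : Fin (m + 1) → Fin (N + 1) => g f = y)) with hFb
  have hne : Fb.Nonempty := by
    rw [← Finset.card_pos]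
    have : (0 : ℝ) < Fb.card := lt_of_lt_of_le hbpos hfib
    exact_mod_cast this
  obtain ⟨f0, hf0⟩ := hne
  refine ⟨Fb.image (fun f => toP f - toP f0), ?_, ?_⟩
  · intro P hP
    obtain ⟨f, hf, rfl⟩ := Finset.mem_image.1 hP
    refine ⟨?_, ?_, ?_⟩
    · refine (natDegree_sub_le _ _).trans ?_
      exact max_le (natDegree_mkPoly_le m _) (natDegree_mkPoly_le m _)
    · have : ht (toP f - toP f0) ≤ N := by
        rw [ht_le_iff]
        intro i
        simp only [toP, coeff_sub, coeff_mkPoly]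
        split_ifs with h
        · have h1 := (f ⟨i, h⟩).2
          have h2 := (f0 ⟨i, h⟩).2
          omega
        · simp
      have h2 : (ht (toP f - toP f0) : ℝ) ≤ N := by exact_mod_cast this
      exact h2.trans hNX
    · have h1 : g f = y := (Finset.mem_filter.1 hf).2
      have h2 : g f0 = y := (Finset.mem_filter.1 hf0).2
      have h3 := Int.floor_le (aeval ξ (toP f) / Y)
      have h4 := Int.lt_floor_add_one (aeval ξ (toP f) / Y)
      have h5 := Int.floor_le (aeval ξ (toP f0) / Y)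
      have h6 := Int.lt_floor_add_one (aeval ξ (toP f0) / Y)
      have h1' : ⌊aeval ξ (toP f) / Y⌋ = y := h1
      have h2' : ⌊aeval ξ (toP f0) / Y⌋ = y := h2
      rw [h1'] at h3 h4
      rw [h2'] at h5 h6
      rw [map_sub]
      have h7 : |aeval ξ (toP f) / Y - aeval ξ (toP f0) / Y| ≤ 1 := by
        rw [abs_le]; constructor <;> linarith
      rw [← sub_div, abs_div, abs_of_pos hY, div_le_one hY] at h7
      exact h7
  · rw [Finset.card_image_of_injective]
    · rw [hb] at hfib
      rw [div_le_iff₀ (by positivity)] at hfib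
      linarith
    · intro f f' hff
      have h1 : toP f = toP f' := sub_left_injective hff
      have h2 := mkPoly_injective m h1
      funext i
      have h3 := congrFun h2 i
      have h4 : ((f i : ℕ) : ℤ) = ((f' i : ℕ) : ℤ) := h3
      exact Fin.ext (by exact_mod_cast h4)

end Pool.Agent.Helper25.SNum
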