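import Mathlib
import Pool.Agent.Helper25.SNumBasics
import Pool.Agent.Helper25.SNumDim

set_option autoImplicit false

namespace Pool.Agent.Helper25.SNum

open Polynomial Module Submodule

/-- integer polynomials of degree `≤ n`, height `≤ X`, value at `ξ` at most `Y·max(1,|ξ|)^n` -/
def TT (ξ X Y : ℝ) (n : ℕ) : Set ℤ[X] :=
  {P | P.natDegree ≤ n ∧ (ht P : ℝ) ≤ X ∧ |aeval ξ P| ≤ Y * (max 1 |ξ|) ^ n}

/-- rational span of `TT` -/
noncomputable def VV (ξ X Y : ℝ) (n : ℕ) : Submodule ℚ ℚ[X] :=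
  span ℚ ((fun P : ℤ[X] => P.map (Int.castRingHom ℚ)) '' TT ξ X Y n)

lemma TT_mono_succ (ξ X Y : ℝ) (hY : 0 ≤ Y) (n : ℕ) {P : ℤ[X]} (hP : P ∈ TT ξ X Y n) :
    P ∈ TT ξ X Y (n + 1) := by
  obtain ⟨h1, h2, h3⟩ := hP
  refine ⟨by omega, h2, h3.trans ?_⟩
  apply mul_le_mul_of_nonneg_left _ hY
  exact pow_le_pow_right₀ (le_max_left _ _) (by omega)

lemma TT_mono (ξ X Y : ℝ) (hY : 0 ≤ Y) {n n' : ℕ} (hn : n ≤ n') {P : ℤ[X]}
    (hP : P ∈ TT ξ X Y n) : P ∈ TT ξ X Y n' := by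
  induction n', hn using Nat.le_induction with
  | base => exact hP
  | succ k _ ih => exact TT_mono_succ ξ X Y hY k ih

lemma X_mul_mem_TT (ξ X' Y : ℝ) (n : ℕ) {P : ℤ[X]} (hP : P ∈ TT ξ X' Y n) :
    X * P ∈ TT ξ X' Y (n + 1) := by
  obtain ⟨h1, h2, h3⟩ := hP
  refine ⟨?_, ?_, ?_⟩
  · refine natDegree_mul_le.trans ?_
    rw [natDegree_X]
    omega
  · have : ht (X * P) ≤ ht P := by
      rw [ht_le_iff]
      intro i
      rcases i with _ | i
      · simp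
      · rw [coeff_X_mul]
        exact natAbs_coeff_le_ht P i
    have h4 : (ht (X * P) : ℝ) ≤ ht P := by exact_mod_cast this
    exact h4.trans h2
  · rw [map_mul, aeval_X, abs_mul, pow_succ]
    have h4 : |ξ| ≤ max 1 |ξ| := le_max_right _ _
    calc |ξ| * |aeval ξ P| ≤ max 1 |ξ| * (Y * (max 1 |ξ|) ^ n) :=
          mul_le_mul h4 h3 (abs_nonneg _) (by positivity)
      _ = _ := by ring

lemma VV_le_degreeLT (ξ X Y : ℝ) (n : ℕ) : VV ξ X Y n ≤ degreeLT ℚ (n + 1) := by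
  unfold VV
  rw [span_le]
  rintro _ ⟨P, ⟨h1, _, _⟩, rfl⟩
  show P.map (Int.castRingHom ℚ) ∈ degreeLT ℚ (n + 1)
  rw [mem_degreeLT]
  refine lt_of_le_of_lt degree_map_le ?_
  exact lt_of_le_of_lt degree_le_natDegree (by exact_mod_cast Nat.lt_succ_of_le h1)

instance finiteDimensional_VV (ξ X Y : ℝ) (n : ℕ) : FiniteDimensional ℚ (VV ξ X Y n) :=
  Submodule.finiteDimensional_of_le (VV_le_degreeLT ξ X Y n)

lemma finrank_VV_le (ξ X Y : ℝ) (n : ℕ) : finrank ℚ (VV ξ X Y n) ≤ n + 1 := by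
  have := Submodule.finrank_mono (VV_le_degreeLT ξ X Y n)
  rwa [finrank_degreeLT] at this

lemma VV_sup_le (ξ X' Y : ℝ) (hY : 0 ≤ Y) (n : ℕ) :
    VV ξ X' Y n ⊔ (VV ξ X' Y n).map (mulL X) ≤ VV ξ X' Y (n + 1) := by
  apply sup_le
  · unfold VV
    apply span_mono
    apply Set.image_mono
    intro P hP
    exact TT_mono_succ ξ X' Y hY n hP
  · unfold VV
    rw [Submodule.map_span_le]
    rintro _ ⟨P, hP, rfl⟩
    apply subset_span
    refine ⟨X * P, X_mul_mem_TT ξ X' Y n hP, ?_⟩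
    simp [mulL]

/-- Every nonzero rational polynomial is a nonzero constant multiple of a primitive integer
polynomial. -/
lemma exists_primitive (g : ℚ[X]) (hg : g ≠ 0) : ∃ (g₀ : ℤ[X]) (u : ℚ), u ≠ 0 ∧
    g₀.IsPrimitive ∧ g = C u * g₀.map (Int.castRingHom ℚ) := by
  obtain ⟨b, hb0, hb⟩ := IsLocalization.integerNormalization_spec (nonZeroDivisors ℤ) g
  set G := IsLocalization.integerNormalization (nonZeroDivisors ℤ) g with hG
  have hb0' : (b : ℤ) ≠ 0 := nonZeroDivisors.ne_zero hb0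
  have hbQ : ((b : ℤ) : ℚ) ≠ 0 := by exact_mod_cast hb0'
  have hG0 : G ≠ 0 := by
    intro h0
    rw [h0, Polynomial.map_zero] at hb
    have h1 : (b : ℤ) • g = 0 := hb.symm
    rw [smul_eq_zero] at h1
    rcases h1 with h1 | h1
    · exact hb0' h1
    · exact hg h1
  refine ⟨G.primPart, (G.content : ℚ) / (b : ℤ), ?_, isPrimitive_primPart G, ?_⟩
  · have : (G.content : ℚ) ≠ 0 := by
      have := content_eq_zero_iff.not.2 hG0
      exact_mod_cast this
    exact div_ne_zero this hbQ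
  · have h1 : G.map (Int.castRingHom ℚ) = C ((b : ℤ) : ℚ) * g := by
      have h2 : G.map (algebraMap ℤ ℚ) = (b : ℤ) • g := hb
      have h3 : (algebraMap ℤ ℚ) = Int.castRingHom ℚ := rfl
      rw [h3] at h2
      rw [h2, zsmul_eq_mul]
      simp
    have h2 : G.map (Int.castRingHom ℚ) =
        C (G.content : ℚ) * G.primPart.map (Int.castRingHom ℚ) := by
      conv_lhs => rw [G.eq_C_content_mul_primPart]
      rw [Polynomial.map_mul, map_C]
      simp
    have h3 : C ((b : ℤ) : ℚ) * g = C ((b : ℤ) : ℚ) *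
        (C ((G.content : ℚ) / (b : ℤ)) * G.primPart.map (Int.castRingHom ℚ)) := by
      rw [← h1, h2, ← mul_assoc, ← C_mul]
      congr 2
      field_simp
    exact mul_left_cancel₀ (by rw [Ne, C_eq_zero]; exact hbQ) h3

/-- Structure lemma. -/
theorem structure_lemma (ξ X' Y : ℝ) (hY : 0 ≤ Y) (m c : ℕ) (hmc : c + 1 ≤ m)
    (hd : m + 1 ≤ finrank ℚ (VV ξ X' Y m) + c) :
    ∃ (s : ℕ) (g : ℤ[X]) (R : Fin (s + 2) → ℤ[X]), s + 1 ≤ m + c ∧ g ≠ 0 ∧
      g.natDegree ≤ 2 * c ∧ (∀ i, g * R i ∈ TT ξ X' Y (m + c)) ∧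
      (∀ i, (R i).natDegree ≤ s + 1) ∧
      LinearIndependent ℚ (fun i => (R i).map (Int.castRingHom ℚ)) := by
  obtain ⟨n, hmn, hnc, hgrow, hlow⟩ := exists_small_growth (fun n => finrank ℚ (VV ξ X' Y n)) m c
    (finrank_VV_le ξ X' Y) hd
  set W := VV ξ X' Y n with hW
  have hWbot : W ≠ ⊥ := by
    intro h0
    rw [h0, finrank_bot] at hlow
    omega
  have hdim : finrank ℚ (W ⊔ W.map (mulL X) : Submodule ℚ ℚ[X]) ≤ finrank ℚ W + 1 :=
    (Submodule.finrank_mono (VV_sup_le ξ X' Y hY n)).trans hgrow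
  obtain ⟨g, hg0, hWg'⟩ := eq_map_degreeLT W (VV_le_degreeLT ξ X' Y n) hWbot hdim
  obtain ⟨k, hk⟩ : ∃ k, finrank ℚ W = k := ⟨_, rfl⟩
  have hWg : W = (degreeLT ℚ k).map (mulL g) := by rw [← hk]; exact hWg'
  have hfdW : FiniteDimensional ℚ (span ℚ
      ((fun P : ℤ[X] => P.map (Int.castRingHom ℚ)) '' TT ξ X' Y n)) :=
    finiteDimensional_VV ξ X' Y n
  obtain ⟨g₀, u, hu0, hprim, hgu⟩ := exists_primitive g hg0
  have hg₀0 : g₀ ≠ 0 := hprim.ne_zero
  have hg₀Q : g₀.map (Int.castRingHom ℚ) ≠ 0 := by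
    rwa [Ne, Polynomial.map_eq_zero_iff (Int.castRingHom ℚ).injective_int]
  -- degree of g
  have hdegg : g₀.natDegree ≤ 2 * c := by
    have h1 : g * X ^ (k - 1) ∈ W := by
      rw [hWg]
      refine ⟨X ^ (k - 1), ?_, rfl⟩
      have hpos : 0 < k := by omega
      show X ^ (k - 1) ∈ degreeLT ℚ k
      rw [mem_degreeLT, degree_X_pow]
      exact_mod_cast Nat.sub_lt hpos one_pos
    have h2 := VV_le_degreeLT ξ X' Y n h1
    rw [mem_degreeLT] at h2
    have h3 : (g * X ^ (k - 1)).natDegree < n + 1 :=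
      (natDegree_lt_iff_degree_lt (mul_ne_zero hg0 (pow_ne_zero _ X_ne_zero))).2 h2
    rw [natDegree_mul hg0 (pow_ne_zero _ X_ne_zero), natDegree_X_pow] at h3
    have h4 : g.natDegree = g₀.natDegree := by
      rw [hgu, natDegree_C_mul hu0]
      exact natDegree_map_eq_of_injective (Int.castRingHom ℚ).injective_int g₀
    omega
  -- choose a basis out of T
  obtain ⟨s, hs⟩ : ∃ s, k = s + 2 := ⟨k - 2, by omega⟩
  have hks : finrank ℚ W = s + 2 := by omega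
  obtain ⟨f', hf'mem, hf'li⟩ : ∃ f' : Fin (s + 2) → ℚ[X],
      (∀ i, f' i ∈ (fun P : ℤ[X] => P.map (Int.castRingHom ℚ)) '' TT ξ X' Y n) ∧
      LinearIndependent ℚ f' := by
    rw [← hks]
    obtain ⟨f, hfmem, _, hfli⟩ := Submodule.exists_fun_fin_finrank_span_eq ℚ
      ((fun P : ℤ[X] => P.map (Int.castRingHom ℚ)) '' TT ξ X' Y n)
    exact ⟨f, hfmem, hfli⟩
  choose P hPT hPf using hf'mem
  have hdiv : ∀ i, ∃ f₁ ∈ degreeLT ℚ (s + 2), P i = P i ∧
      (P i).map (Int.castRingHom ℚ) = g₀.map (Int.castRingHom ℚ) * f₁ := by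
    intro i
    have h1 : (P i).map (Int.castRingHom ℚ) ∈ W := subset_span ⟨P i, hPT i, rfl⟩
    rw [hWg] at h1
    obtain ⟨f₂, hf₂, hf₂eq⟩ := h1
    rw [hs] at hf₂
    refine ⟨C u * f₂, ?_, rfl, ?_⟩
    · rw [← smul_eq_C_mul]
      exact Submodule.smul_mem _ _ hf₂
    · rw [← hf₂eq]
      simp only [mulL, LinearMap.mulLeft_apply]
      rw [hgu]
      ring
  choose f₁ hf₁deg _ hf₁ using hdiv
  have hdvd : ∀ i, g₀ ∣ P i := by
    intro i
    rw [IsPrimitive.Int.dvd_iff_map_cast_dvd_map_cast g₀ (P i) hprim]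
    exact ⟨f₁ i, hf₁ i⟩
  choose R hR using hdvd
  have hRf : ∀ i, (R i).map (Int.castRingHom ℚ) = f₁ i := by
    intro i
    have h1 := hf₁ i
    rw [hR i, Polynomial.map_mul] at h1
    exact mul_left_cancel₀ hg₀Q h1
  refine ⟨s, g₀, R, ?_, hg₀0, hdegg, ?_, ?_, ?_⟩
  · have h1 := finrank_VV_le ξ X' Y n
    rw [← hW] at h1
    omega
  · intro i
    rw [← hR i]
    exact TT_mono ξ X' Y hY hnc (hPT i)
  · intro i
    have h1 : (R i).natDegree = (f₁ i).natDegree := by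
      rw [← hRf i]
      exact (natDegree_map_eq_of_injective (Int.castRingHom ℚ).injective_int _).symm
    rw [h1]
    by_cases h0 : f₁ i = 0
    · simp [h0]
    · have h2 := (natDegree_lt_iff_degree_lt h0).2 (mem_degreeLT.1 (hf₁deg i))
      omega
  · have h1 : f' = (mulL (g₀.map (Int.castRingHom ℚ))) ∘
        (fun i => (R i).map (Int.castRingHom ℚ)) := by
      funext i
      simp only [Function.comp, mulL, LinearMap.mulLeft_apply]
      rw [hRf i, ← hf₁ i]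
      exact (hPf i).symm
    rw [h1] at hf'li
    exact LinearIndependent.of_comp _ hf'li

end Pool.Agent.Helper25.SNum
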