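import Mathlib
import Pool.Agent.Helper25.SNumBasics
import Pool.Agent.Helper25.SNumPacking
import Pool.Agent.Helper25.SNumPigeon
import Pool.Agent.Helper25.SNumStruct

set_option autoImplicit false

namespace Pool.Agent.Helper25.SNum

open Polynomial Module Submodule

/-- scaled coefficients together with the scaled value at `ξ` -/
noncomputable def phi (ξ X' Y : ℝ) (m : ℕ) : ℚ[X] →ₗ[ℚ] ((Fin (m + 1) → ℝ) × ℝ) where
  toFun P := (fun i => ((P.coeff (i : ℕ) : ℚ) : ℝ) / X', aeval ξ P / Y)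
  map_add' P Q := by
    refine Prod.ext ?_ ?_
    · funext i
      simp only [coeff_add, Rat.cast_add, Prod.fst_add, Pi.add_apply]
      ring
    · simp only [map_add, Prod.snd_add]
      ring
  map_smul' a P := by
    refine Prod.ext ?_ ?_
    · funext i
      simp only [coeff_smul, smul_eq_mul, Rat.cast_mul, RingHom.id_apply, Prod.smul_fst,
        Pi.smul_apply, Rat.smul_def]
      ring
    · simp only [map_smul, RingHom.id_apply, Prod.smul_snd, Rat.smul_def]
      ring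

lemma aeval_map_int (ξ : ℝ) (P : ℤ[X]) :
    aeval ξ (P.map (Int.castRingHom ℚ)) = aeval ξ P := by
  have : (Int.castRingHom ℚ) = algebraMap ℤ ℚ := rfl
  rw [this, aeval_map_algebraMap]

theorem rank_lower (ξ : ℝ) (q e : ℕ) (hq : 1 ≤ q) (he : 1 ≤ e) (c₀ : ℝ) (hc₀ : 0 < c₀)
    (h0 : ∀ P : ℤ[X], P ≠ 0 → P.natDegree ≤ q ^ 2 * e →
      c₀ ≤ |aeval ξ P| * (ht P : ℝ) ^ ((q ^ 2 + 1) * e)) :
    ∃ t₁ : ℝ, 1 ≤ t₁ ∧ ∀ t : ℝ, t₁ ≤ t →
      q ^ 2 * e + 1 ≤ finrank ℚ (VV ξ (t ^ (q ^ 2 + q)) (t ^ q / t ^ (q ^ 4 * e)) (q ^ 2 * e))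
        + q * e := by
  obtain ⟨A, hA1, hA⟩ := exists_many ξ (q ^ 2 * e)
  set m := q ^ 2 * e with hm
  refine ⟨max 1 (max (1 / c₀ + 1) (A * 3 ^ m + 1)), le_max_left _ _, ?_⟩
  intro t ht'
  have ht1 : 1 ≤ t := (le_max_left _ _).trans ht'
  have htc : 1 / c₀ < t := by
    have := (le_max_left _ _).trans ((le_max_right _ _).trans ht')
    linarith
  have htA : A * 3 ^ m < t := by
    have := (le_max_right _ _).trans ((le_max_right _ _).trans ht')
    linarith
  have htpos : 0 < t := by linarith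
  set X' := t ^ (q ^ 2 + q) with hX'
  set Y := t ^ q / t ^ (q ^ 4 * e) with hY
  have hX'1 : 1 ≤ X' := one_le_pow₀ ht1
  have hYpos : 0 < Y := by positivity
  have hYX : Y ≤ X' := by
    have h1 : Y ≤ t ^ q := div_le_self (by positivity) (one_le_pow₀ ht1)
    exact h1.trans (pow_le_pow_right₀ ht1 (by omega))
  by_contra hcon
  push Not at hcon
  obtain ⟨S, hS, hcard⟩ := hA X' Y hX'1 hYpos hYX
  classical
  let mp : ℤ[X] → ℚ[X] := fun P => P.map (Int.castRingHom ℚ)
  let φ := phi ξ X' Y m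
  -- separation
  have hsep : ∀ P ∈ S, ∀ P' ∈ S, P ≠ P' → 1 / t ^ (q + 1) ≤ ‖φ (mp P) - φ (mp P')‖ := by
    intro P hP P' hP' hne
    by_contra hlt
    push Not at hlt
    set R := P - P' with hR
    have hR0 : R ≠ 0 := sub_ne_zero.2 hne
    have hRdeg : R.natDegree ≤ m :=
      (natDegree_sub_le _ _).trans (max_le (hS P hP).1 (hS P' hP').1)
    have e1 : φ (mp P) - φ (mp P') = φ (mp R) := by
      rw [← map_sub]
      congr 1
      simp [mp, hR]
    rw [e1] at hlt
    have h1 : ‖(φ (mp R)).1‖ < 1 / t ^ (q + 1) := lt_of_le_of_lt (norm_fst_le _) hlt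
    have h2 : ‖(φ (mp R)).2‖ < 1 / t ^ (q + 1) := lt_of_le_of_lt (norm_snd_le _) hlt
    have hX'pos : 0 < X' := by linarith
    -- height of R
    have h3 : (ht R : ℝ) ≤ t ^ (q ^ 2 - 1) := by
      rw [ht_le_real_iff _ _ (by positivity)]
      intro i
      by_cases hi : i < m + 1
      · have h4 := (norm_le_pi_norm (φ (mp R)).1 ⟨i, hi⟩).trans h1.le
        have h5 : (φ (mp R)).1 ⟨i, hi⟩ = (R.coeff i : ℝ) / X' := by
          simp [φ, phi, mp]
        rw [h5, Real.norm_eq_abs, abs_div, abs_of_pos hX'pos, div_le_iff₀ hX'pos] at h4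
        refine h4.trans (le_of_eq ?_)
        have h6 : q ^ 2 + q = (q + 1) + (q ^ 2 - 1) := by
          have : 1 ≤ q ^ 2 := Nat.one_le_pow _ _ hq
          omega
        rw [hX', h6, pow_add t (q + 1)]
        have h7 : t ^ (q + 1) ≠ 0 := by positivity
        rw [← mul_assoc, one_div_mul_cancel h7, one_mul]
      · rw [coeff_eq_zero_of_natDegree_lt (by omega)]
        simp
        positivity
    -- value of R
    have h4 : |aeval ξ R| * t ^ (q ^ 4 * e + 1) < 1 := by
      have h5 : (φ (mp R)).2 = aeval ξ R / Y := by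
        simp only [φ, phi, mp]
        show aeval ξ (R.map (Int.castRingHom ℚ)) / Y = _
        rw [aeval_map_int]
      rw [h5, Real.norm_eq_abs, abs_div, abs_of_pos hYpos, div_lt_iff₀ hYpos, hY] at h2
      have h6 : 1 / t ^ (q + 1) * (t ^ q / t ^ (q ^ 4 * e)) = 1 / t ^ (q ^ 4 * e + 1) := by
        rw [pow_succ t q, pow_succ t (q ^ 4 * e)]
        field_simp
      rw [h6, lt_div_iff₀ (by positivity)] at h2
      exact h2
    have h5 := h0 R hR0 hRdeg
    have h6 : (ht R : ℝ) ^ ((q ^ 2 + 1) * e) ≤ t ^ ((q ^ 2 - 1) * ((q ^ 2 + 1) * e)) := by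
      rw [pow_mul t]
      exact pow_le_pow_left₀ (Nat.cast_nonneg _) h3 _
    have h7 : (q ^ 2 - 1) * ((q ^ 2 + 1) * e) + 1 ≤ q ^ 4 * e + 1 := by
      have h8 : 1 ≤ q ^ 2 := Nat.one_le_pow _ _ hq
      obtain ⟨r, hr⟩ : ∃ r, q ^ 2 = r + 1 := ⟨q ^ 2 - 1, by omega⟩
      have h9 : q ^ 4 = (r + 1) * (r + 1) := by
        have : q ^ 4 = q ^ 2 * q ^ 2 := by ring
        rw [this, hr]
      rw [h9, hr, Nat.add_sub_cancel]
      nlinarith
    have h8 : c₀ * t ≤ |aeval ξ R| * t ^ (q ^ 4 * e + 1) := by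
      calc c₀ * t ≤ (|aeval ξ R| * (ht R : ℝ) ^ ((q ^ 2 + 1) * e)) * t :=
            mul_le_mul_of_nonneg_right h5 htpos.le
        _ ≤ (|aeval ξ R| * t ^ ((q ^ 2 - 1) * ((q ^ 2 + 1) * e))) * t := by
            apply mul_le_mul_of_nonneg_right _ htpos.le
            exact mul_le_mul_of_nonneg_left h6 (abs_nonneg _)
        _ = |aeval ξ R| * t ^ ((q ^ 2 - 1) * ((q ^ 2 + 1) * e) + 1) := by
            rw [pow_succ]; ring
        _ ≤ |aeval ξ R| * t ^ (q ^ 4 * e + 1) := by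
            apply mul_le_mul_of_nonneg_left _ (abs_nonneg _)
            exact pow_le_pow_right₀ ht1 h7
    have h9 : 1 < c₀ * t := by
      rw [div_lt_iff₀ hc₀] at htc
      linarith
    linarith
  -- unit ball
  have hball : ∀ P ∈ S, ‖φ (mp P)‖ ≤ 1 := by
    intro P hP
    obtain ⟨_, hP2, hP3⟩ := hS P hP
    have hX'pos : 0 < X' := by linarith
    rw [Prod.norm_def, max_le_iff]
    constructor
    · rw [pi_norm_le_iff_of_nonneg zero_le_one]
      intro i
      have h5 : (φ (mp P)).1 i = (P.coeff i : ℝ) / X' := by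
        simp [φ, phi, mp]
      rw [h5, Real.norm_eq_abs, abs_div, abs_of_pos hX'pos, div_le_one hX'pos]
      exact (abs_coeff_le_ht _ _).trans hP2
    · have h5 : (φ (mp P)).2 = aeval ξ P / Y := by
        simp only [φ, phi, mp]
        show aeval ξ (P.map (Int.castRingHom ℚ)) / Y = _
        rw [aeval_map_int]
      rw [h5, Real.norm_eq_abs, abs_div, abs_of_pos hYpos, div_le_one hYpos]
      exact hP3
  -- the real span
  have hfdQ : FiniteDimensional ℚ (span ℚ (mp '' (S : Set ℤ[X]))) :=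
    FiniteDimensional.span_of_finite ℚ ((S.finite_toSet).image _)
  obtain ⟨hrk, hfdR⟩ := finrank_span_image_le φ (mp '' (S : Set ℤ[X]))
  set E := Submodule.span ℝ (φ '' (mp '' (S : Set ℤ[X]))) with hE
  have hmemE : ∀ P ∈ S, φ (mp P) ∈ E := fun P hP =>
    subset_span ⟨mp P, ⟨P, hP, rfl⟩, rfl⟩
  have hrk2 : finrank ℚ (span ℚ (mp '' (S : Set ℤ[X]))) ≤ finrank ℚ (VV ξ X' Y m) := by
    apply Submodule.finrank_mono
    unfold VV
    apply span_mono
    apply Set.image_mono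
    intro P hP
    obtain ⟨hP1, hP2, hP3⟩ := hS P hP
    refine ⟨hP1, hP2, hP3.trans ?_⟩
    exact le_mul_of_one_le_right hYpos.le (one_le_pow₀ (le_max_left _ _))
  let s' : Finset E := S.attach.image (fun P => ⟨φ (mp P.1), hmemE P.1 P.2⟩)
  have hρpos : 0 < 1 / t ^ (q + 1) := by positivity
  have hs'card : s'.card = S.card := by
    rw [Finset.card_image_of_injOn, Finset.card_attach]
    intro P _ P' _ hPP
    by_contra hne
    have hne' : P.1 ≠ P'.1 := fun h => hne (Subtype.ext h)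
    have h1 := hsep P.1 P.2 P'.1 P'.2 hne'
    have h2 : φ (mp P.1) = φ (mp P'.1) := congrArg Subtype.val hPP
    rw [h2, sub_self, norm_zero] at h1
    linarith
  have hpack := card_le_of_separated s' (1 / t ^ (q + 1)) hρpos
    (by
      intro c hc
      obtain ⟨P, _, rfl⟩ := Finset.mem_image.1 hc
      exact hball P.1 P.2)
    (by
      intro c hc d hd hcd
      obtain ⟨P, _, rfl⟩ := Finset.mem_image.1 hc
      obtain ⟨P', _, rfl⟩ := Finset.mem_image.1 hd
      have hne : P.1 ≠ P'.1 := by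
        intro h
        apply hcd
        have : P = P' := Subtype.ext h
        rw [this]
      exact hsep P.1 P.2 P'.1 P'.2 hne)
  rw [hs'card] at hpack
  have hdimE : finrank ℝ E ≤ m - q * e := by
    have h1 : finrank ℝ E ≤ finrank ℚ (VV ξ X' Y m) := hrk.trans hrk2
    omega
  have hbase : 1 + 2 / (1 / t ^ (q + 1)) ≤ 3 * t ^ (q + 1) := by
    have h1 : 1 ≤ t ^ (q + 1) := one_le_pow₀ ht1
    have h2 : 2 / (1 / t ^ (q + 1)) = 2 * t ^ (q + 1) := by field_simp
    rw [h2]; linarith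
  have h3t : 1 ≤ 3 * t ^ (q + 1) := by
    have h1 : 1 ≤ t ^ (q + 1) := one_le_pow₀ ht1
    linarith
  have hcard2 : (S.card : ℝ) ≤ 3 ^ m * t ^ (q ^ 3 * e) := by
    calc (S.card : ℝ) ≤ (1 + 2 / (1 / t ^ (q + 1))) ^ finrank ℝ E := hpack
      _ ≤ (3 * t ^ (q + 1)) ^ finrank ℝ E := pow_le_pow_left₀ (by positivity) hbase _
      _ ≤ (3 * t ^ (q + 1)) ^ (m - q * e) := pow_le_pow_right₀ h3t hdimE
      _ = 3 ^ (m - q * e) * t ^ ((q + 1) * (m - q * e)) := by rw [mul_pow, ← pow_mul]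
      _ ≤ 3 ^ m * t ^ (q ^ 3 * e) := by
          apply mul_le_mul
          · exact pow_le_pow_right₀ (by norm_num) (Nat.sub_le _ _)
          · apply pow_le_pow_right₀ ht1
            obtain ⟨r, rfl⟩ : ∃ r, q = r + 1 := ⟨q - 1, by omega⟩
            have h1 : m - (r + 1) * e = (r + 1) * r * e := by
              rw [hm]
              have : (r + 1) ^ 2 * e = (r + 1) * r * e + (r + 1) * e := by ring
              rw [this]; omega
            rw [h1]
            have h2 : (r + 1) ^ 3 * e = (r + 1 + 1) * ((r + 1) * r * e) + (r + 1) * e := by ring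
            omega
          · positivity
          · positivity
  have hXY : X' ^ m * Y = t ^ (q ^ 3 * e + q) := by
    rw [hX', hY, ← pow_mul, hm]
    have h1 : (q ^ 2 + q) * (q ^ 2 * e) = q ^ 4 * e + q ^ 3 * e := by ring
    rw [h1, pow_add, pow_add]
    field_simp
  rw [hXY] at hcard
  have hfin : t ^ (q ^ 3 * e + q) ≤ A * (3 ^ m * t ^ (q ^ 3 * e)) :=
    hcard.trans (mul_le_mul_of_nonneg_left hcard2 (by linarith))
  rw [pow_add] at hfin
  have htq : t ≤ t ^ q := by
    calc t = t ^ 1 := (pow_one t).symm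
      _ ≤ t ^ q := pow_le_pow_right₀ ht1 hq
  have hpp : 0 < t ^ (q ^ 3 * e) := by positivity
  have h10 : t ^ q ≤ A * 3 ^ m := by
    have h11 : t ^ (q ^ 3 * e) * t ^ q ≤ t ^ (q ^ 3 * e) * (A * 3 ^ m) := by
      calc t ^ (q ^ 3 * e) * t ^ q ≤ A * (3 ^ m * t ^ (q ^ 3 * e)) := hfin
        _ = _ := by ring
    exact le_of_mul_le_mul_left h11 hpp
  linarith

end Pool.Agent.Helper25.SNum
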