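import Mathlib
import Pool.Agent.Helper25.SNumBasics
import Pool.Agent.Helper25.SNumDet
import Pool.Agent.Helper25.SNumNewton
import Pool.Agent.Helper25.SNumStruct
import Pool.Agent.Helper25.SNumRank

set_option autoImplicit false

namespace Pool.Agent.Helper25.SNum

open Polynomial Module Submodule

lemma const_mul_pow_le {K t : ℝ} {a b : ℕ} (ht : 1 ≤ t) (hK : K ≤ t) (hab : a + 1 ≤ b) :
    K * t ^ a ≤ t ^ b := by
  calc K * t ^ a ≤ t * t ^ a := mul_le_mul_of_nonneg_right hK (by positivity)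
    _ = t ^ (a + 1) := by ring
    _ ≤ t ^ b := pow_le_pow_right₀ ht hab

/-- The main quantitative proposition. -/
theorem main_prop (ξ : ℝ) (hξ : Transcendental ℤ ξ) (q e : ℕ) (hq : 20 ≤ q) (he : 1 ≤ e)
    (c₀ : ℝ) (hc₀ : 0 < c₀)
    (h0 : ∀ P : ℤ[X], P ≠ 0 → P.natDegree ≤ q ^ 2 * e →
      c₀ ≤ |aeval ξ P| * (ht P : ℝ) ^ ((q ^ 2 + 1) * e))
    (c₁ : ℝ) (hc₁ : 0 < c₁)
    (h1 : ∀ P : ℤ[X], P ≠ 0 → P.natDegree ≤ 2 * (q * e) →
      c₁ ≤ |aeval ξ P| * (ht P : ℝ) ^ (4 * (q * e)))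
    (δ : ℝ) (hδ : 0 < δ) (w : ℕ) (hw : w + 12 * (q * e) = q ^ 2 * e) :
    ∃ (α : ℝ) (Q : ℤ[X]), Irreducible Q ∧ Q.natDegree ≤ q ^ 2 * e + q * e ∧
      aeval α Q = 0 ∧ |ξ - α| < δ ∧ |ξ - α| * (ht Q : ℝ) ^ w ≤ 1 := by
  obtain ⟨t₁, ht₁1, ht₁⟩ := rank_lower ξ q e (by omega) he c₀ hc₀ h0
  set N := q ^ 2 * e + q * e with hN
  obtain ⟨C₁, hC₁1, hC₁⟩ := ht_factor_le N
  obtain ⟨M, hM1, hM⟩ := exists_root_near ξ N
  set B : ℝ := max 1 |ξ| with hB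
  have hB1 : 1 ≤ B := le_max_left _ _
  set K₂ : ℝ := B ^ N * C₁ ^ (4 * (q * e)) / c₁ with hK₂
  have hK₂pos : 0 < K₂ := by positivity
  set K₃ : ℝ := 1 / (2 * ((N + 1).factorial : ℝ) * K₂ * C₁ ^ N) with hK₃
  have hK₃pos : 0 < K₃ := by positivity
  -- choice of t
  obtain ⟨t, htt₁, hta, htb, htc, htd⟩ : ∃ t : ℝ, t₁ ≤ t ∧ 2 * K₂ / K₃ ≤ t ∧
      M * C₁ * K₂ / K₃ ^ 2 ≤ t ∧ (2 * K₂ / K₃) * C₁ ^ (2 * w) ≤ t ∧
      2 * K₂ / K₃ < t * δ := by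
    refine ⟨max t₁ (max (2 * K₂ / K₃) (max (M * C₁ * K₂ / K₃ ^ 2)
      (max ((2 * K₂ / K₃) * C₁ ^ (2 * w)) (2 * K₂ / K₃ / δ + 1)))), ?_, ?_, ?_, ?_, ?_⟩
    · exact le_max_left _ _
    · exact (le_max_left _ _).trans (le_max_right _ _)
    · exact (le_max_left _ _).trans ((le_max_right _ _).trans (le_max_right _ _))
    · exact (le_max_left _ _).trans ((le_max_right _ _).trans ((le_max_right _ _).trans
        (le_max_right _ _)))
    · have h2 : 2 * K₂ / K₃ / δ + 1 ≤ max t₁ (max (2 * K₂ / K₃) (max (M * C₁ * K₂ / K₃ ^ 2)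
          (max ((2 * K₂ / K₃) * C₁ ^ (2 * w)) (2 * K₂ / K₃ / δ + 1)))) :=
        (le_max_right _ _).trans ((le_max_right _ _).trans ((le_max_right _ _).trans
          (le_max_right _ _)))
      have h3 : 2 * K₂ / K₃ / δ < max t₁ (max (2 * K₂ / K₃) (max (M * C₁ * K₂ / K₃ ^ 2)
          (max ((2 * K₂ / K₃) * C₁ ^ (2 * w)) (2 * K₂ / K₃ / δ + 1)))) := by linarith
      rwa [div_lt_iff₀ hδ] at h3
  have ht1 : 1 ≤ t := ht₁1.trans htt₁
  have htpos : 0 < t := by linarith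
  set X' := t ^ (q ^ 2 + q) with hX'
  set Y := t ^ q / t ^ (q ^ 4 * e) with hY
  have hX'1 : 1 ≤ X' := one_le_pow₀ ht1
  have hYpos : 0 < Y := by positivity
  -- exponent arithmetic
  obtain ⟨a₁, ha₁⟩ : ∃ a, a = q + (q ^ 2 + q) * (4 * (q * e)) := ⟨_, rfl⟩
  obtain ⟨a₂, ha₂⟩ : ∃ a, a = q ^ 4 * e := ⟨_, rfl⟩
  obtain ⟨a₃, ha₃⟩ : ∃ a, a = (q ^ 2 + q) * N := ⟨_, rfl⟩
  have hA1 : a₁ = q + 4 * (q ^ 3 * e) + 4 * (q ^ 2 * e) := by rw [ha₁]; ring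
  have hA3 : a₃ = a₂ + 2 * (q ^ 3 * e) + q ^ 2 * e := by rw [ha₃, hN, ha₂]; ring
  have hq4 : 20 * (q ^ 3 * e) ≤ a₂ := by
    have : a₂ = q * (q ^ 3 * e) := by rw [ha₂]; ring
    rw [this]; exact Nat.mul_le_mul_right _ hq
  have hq3 : 20 * (q ^ 2 * e) ≤ q ^ 3 * e := by
    have : q ^ 3 * e = q * (q ^ 2 * e) := by ring
    rw [this]; exact Nat.mul_le_mul_right _ hq
  have hq2 : 20 * q ≤ q ^ 2 * e := by
    have h2 : q ^ 2 * e = q * q * e := by ring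
    have h3 : 20 * q ≤ q * q := Nat.mul_le_mul_right _ hq
    rw [h2]
    exact h3.trans (Nat.le_mul_of_pos_right _ he)
  have hq2' : q ^ 2 ≤ q ^ 2 * e := Nat.le_mul_of_pos_right _ he
  have hexp1 : 2 * a₁ + a₃ + 1 ≤ 2 * a₂ := by omega
  have hexp2 : (q ^ 2 + q) + 3 * a₁ + 2 * a₃ + 1 ≤ 3 * a₂ := by omega
  have hexp3 : 2 * a₁ + a₃ + (q ^ 2 + q) * w + 1 ≤ 2 * a₂ := by
    have h2 : (q ^ 2 + q) * w + 12 * (q ^ 3 * e) + 12 * (q ^ 2 * e) = a₂ + q ^ 3 * e := by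
      have h3 : (q ^ 2 + q) * (w + 12 * (q * e)) = (q ^ 2 + q) * (q ^ 2 * e) := by rw [hw]
      have h4 : (q ^ 2 + q) * (w + 12 * (q * e)) =
          (q ^ 2 + q) * w + 12 * (q ^ 3 * e) + 12 * (q ^ 2 * e) := by ring
      have h5 : (q ^ 2 + q) * (q ^ 2 * e) = a₂ + q ^ 3 * e := by rw [ha₂]; ring
      omega
    omega
  -- apply the structure lemma
  have hrank := ht₁ t htt₁
  have hmc : q * e + 1 ≤ q ^ 2 * e := by
    have h2 : 20 * (q * e) ≤ q ^ 2 * e := by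
      have : q ^ 2 * e = q * (q * e) := by ring
      rw [this]; exact Nat.mul_le_mul_right _ hq
    have h3 : 1 ≤ q * e := Nat.one_le_iff_ne_zero.2 (by positivity)
    omega
  obtain ⟨s, g, R, hsN, hg0, hgdeg, hgR, hRdeg, hRli⟩ :=
    structure_lemma ξ X' Y hYpos.le (q ^ 2 * e) (q * e) hmc hrank
  rw [← hN] at hsN
  have hRne : ∀ i, R i ≠ 0 := by
    intro i hi
    have := hRli.ne_zero i
    rw [hi, Polynomial.map_zero] at this
    exact this rfl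
  have hPne : ∀ i, g * R i ≠ 0 := fun i => mul_ne_zero hg0 (hRne i)
  -- heights
  have hhtR : ∀ i, (ht (R i) : ℝ) ≤ C₁ * X' := by
    intro i
    obtain ⟨hd1, hd2, _⟩ := hgR i
    exact (hC₁ (g * R i) (R i) (Dvd.intro_left g rfl) (hPne i) hd1).trans
      (mul_le_mul_of_nonneg_left hd2 (by linarith))
  have hhtg : (ht g : ℝ) ≤ C₁ * X' := by
    obtain ⟨hd1, hd2, _⟩ := hgR 0
    exact (hC₁ (g * R 0) g (Dvd.intro (R 0) rfl) (hPne 0) hd1).trans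
      (mul_le_mul_of_nonneg_left hd2 (by linarith))
  have hgval : c₁ ≤ |aeval ξ g| * (C₁ * X') ^ (4 * (q * e)) :=
    (h1 g hg0 hgdeg).trans (mul_le_mul_of_nonneg_left
      (pow_le_pow_left₀ (Nat.cast_nonneg _) hhtg _) (abs_nonneg _))
  -- values
  set y₁ : ℝ := K₂ * (t ^ a₁ / t ^ a₂) with hy₁
  have hy₁pos : 0 < y₁ := by positivity
  have hval : ∀ i, |aeval ξ (R i)| ≤ y₁ := by
    intro i
    obtain ⟨_, _, hd3⟩ := hgR i
    rw [map_mul, abs_mul] at hd3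
    have h2 : c₁ * |aeval ξ (R i)| ≤ (Y * B ^ N) * (C₁ * X') ^ (4 * (q * e)) := by
      calc c₁ * |aeval ξ (R i)| ≤
          (|aeval ξ g| * (C₁ * X') ^ (4 * (q * e))) * |aeval ξ (R i)| :=
            mul_le_mul_of_nonneg_right hgval (abs_nonneg _)
        _ = (|aeval ξ g| * |aeval ξ (R i)|) * (C₁ * X') ^ (4 * (q * e)) := by ring
        _ ≤ _ := mul_le_mul_of_nonneg_right hd3 (by positivity)
    have h3 : y₁ = (Y * B ^ N) * (C₁ * X') ^ (4 * (q * e)) / c₁ := by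
      rw [hy₁, hK₂, hY, hX', ha₁, mul_pow, ← pow_mul, pow_add, ha₂]
      ring
    rw [h3, le_div_iff₀ hc₁]
    linarith
  -- the derivative bound
  set Z : ℝ := K₃ * (t ^ a₂ / (t ^ a₁ * t ^ a₃)) with hZ
  have hZpos : 0 < Z := by positivity
  have hCX1 : 1 ≤ C₁ * X' := by nlinarith
  have hex : ∃ i, Z ≤ |aeval ξ (derivative (R i))| := by
    by_contra hcon
    push Not at hcon
    have h2 := one_le_of_linearIndependent ξ s R hRdeg hRli (C₁ * X') y₁ Z hhtR hval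
      (fun i => (hcon i).le)
    have h3 : ((s + 2).factorial : ℝ) ≤ ((N + 1).factorial : ℝ) := by
      exact_mod_cast Nat.factorial_le (by omega)
    have h4 : (C₁ * X') ^ s ≤ (C₁ * X') ^ N := pow_le_pow_right₀ hCX1 (by omega)
    have h5 : ((s + 2).factorial : ℝ) * (y₁ * Z * (C₁ * X') ^ s) ≤
        ((N + 1).factorial : ℝ) * (y₁ * Z * (C₁ * X') ^ N) := by
      apply mul_le_mul h3 _ (by positivity) (by positivity)
      exact mul_le_mul_of_nonneg_left h4 (by positivity)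
    have h6 : ((N + 1).factorial : ℝ) * (y₁ * Z * (C₁ * X') ^ N) = 1 / 2 := by
      rw [hy₁, hZ, hK₃, mul_pow, hX', ← pow_mul, ← ha₃]
      have hf : ((N + 1).factorial : ℝ) ≠ 0 := by positivity
      field_simp
    linarith
  obtain ⟨i, hi⟩ := hex
  have hRN : (R i).natDegree ≤ N := (hRdeg i).trans hsN
  -- Newton
  have e1 : t ^ (2 * a₁ + a₃) = (t ^ a₁) ^ 2 * t ^ a₃ := by ring
  have e2 : t ^ (2 * a₂) = (t ^ a₂) ^ 2 := by ring
  have hT1 : 0 < t ^ a₁ := by positivity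
  have hT2 : 0 < t ^ a₂ := by positivity
  have hT3 : 0 < t ^ a₃ := by positivity
  have hnewt1 : 2 * y₁ ≤ Z := by
    have h2 : 2 * K₂ / K₃ * t ^ (2 * a₁ + a₃) ≤ t ^ (2 * a₂) := const_mul_pow_le ht1 hta hexp1
    rw [e1, e2] at h2
    have h3 : 2 * y₁ =
        (2 * K₂ / K₃ * ((t ^ a₁) ^ 2 * t ^ a₃)) * (K₃ / (t ^ a₁ * t ^ a₂ * t ^ a₃)) := by
      rw [hy₁]
      generalize t ^ a₁ = T1 at *
      generalize t ^ a₂ = T2 at *
      generalize t ^ a₃ = T3 at *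
      field_simp
    have h4 : Z = (t ^ a₂) ^ 2 * (K₃ / (t ^ a₁ * t ^ a₂ * t ^ a₃)) := by
      rw [hZ]
      generalize t ^ a₁ = T1 at *
      generalize t ^ a₂ = T2 at *
      generalize t ^ a₃ = T3 at *
      field_simp
    rw [h3, h4]
    exact mul_le_mul_of_nonneg_right h2 (by positivity)
  have hnewt2 : M * (ht (R i) : ℝ) * y₁ ≤ Z ^ 2 := by
    have h2 : M * C₁ * K₂ / K₃ ^ 2 * t ^ ((q ^ 2 + q) + 3 * a₁ + 2 * a₃) ≤ t ^ (3 * a₂) :=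
      const_mul_pow_le ht1 htb hexp2
    have e3 : t ^ ((q ^ 2 + q) + 3 * a₁ + 2 * a₃) =
        X' * (t ^ a₁) ^ 3 * (t ^ a₃) ^ 2 := by rw [hX']; ring
    have e4 : t ^ (3 * a₂) = (t ^ a₂) ^ 3 := by ring
    rw [e3, e4] at h2
    have h3 : M * (C₁ * X') * y₁ =
        (M * C₁ * K₂ / K₃ ^ 2 * (X' * (t ^ a₁) ^ 3 * (t ^ a₃) ^ 2)) *
          (K₃ ^ 2 / ((t ^ a₁) ^ 2 * t ^ a₂ * (t ^ a₃) ^ 2)) := by
      rw [hy₁]
      generalize t ^ a₁ = T1 at *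
      generalize t ^ a₂ = T2 at *
      generalize t ^ a₃ = T3 at *
      field_simp
    have h4 : Z ^ 2 = (t ^ a₂) ^ 3 * (K₃ ^ 2 / ((t ^ a₁) ^ 2 * t ^ a₂ * (t ^ a₃) ^ 2)) := by
      rw [hZ]
      generalize t ^ a₁ = T1 at *
      generalize t ^ a₂ = T2 at *
      generalize t ^ a₃ = T3 at *
      field_simp
    calc M * (ht (R i) : ℝ) * y₁ ≤ M * (C₁ * X') * y₁ := by
          apply mul_le_mul_of_nonneg_right _ hy₁pos.le
          exact mul_le_mul_of_nonneg_left (hhtR i) (by linarith)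
      _ ≤ Z ^ 2 := by
          rw [h3, h4]
          exact mul_le_mul_of_nonneg_right h2 (by positivity)
  obtain ⟨α, hα0, hαξ⟩ := hM (R i) hRN y₁ Z hy₁pos.le hZpos (hval i) hi hnewt1 hnewt2
  have hdist : |ξ - α| ≤ 2 * K₂ / K₃ * (t ^ (2 * a₁ + a₃) / t ^ (2 * a₂)) := by
    refine hαξ.trans (le_of_eq ?_)
    rw [hy₁, hZ, e1, e2]
    generalize t ^ a₁ = T1 at *
    generalize t ^ a₂ = T2 at *
    generalize t ^ a₃ = T3 at *
    field_simp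
  -- irreducible factor
  obtain ⟨Q, hQirr, hQdvd, hQα⟩ : ∃ Q : ℤ[X], Irreducible Q ∧ Q ∣ R i ∧ aeval α Q = 0 := by
    obtain ⟨f, hf1, hf2⟩ := WfDvdMonoid.exists_factors (R i) (hRne i)
    have h2 : aeval α f.prod = 0 := by
      obtain ⟨u, hu⟩ := hf2
      have h3 : aeval α (f.prod) * aeval α (u : ℤ[X]) = 0 := by
        rw [← map_mul, hu, hα0]
      rcases mul_eq_zero.1 h3 with h4 | h4
      · exact h4
      · exfalso
        have h5 : IsUnit (aeval α (u : ℤ[X])) := u.isUnit.map _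
        rw [h4] at h5
        exact not_isUnit_zero h5
    rw [map_multiset_prod, Multiset.prod_eq_zero_iff, Multiset.mem_map] at h2
    obtain ⟨Q, hQf, hQ0⟩ := h2
    exact ⟨Q, hf1 Q hQf, (Multiset.dvd_prod hQf).trans hf2.dvd, hQ0⟩
  refine ⟨α, Q, hQirr, ?_, hQα, ?_, ?_⟩
  · exact (natDegree_le_of_dvd hQdvd (hRne i)).trans hRN
  · refine lt_of_le_of_lt hdist ?_
    have h2 : t ^ (2 * a₁ + a₃) / t ^ (2 * a₂) ≤ 1 / t := by
      rw [div_le_div_iff₀ (by positivity) htpos, one_mul, ← pow_succ]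
      exact pow_le_pow_right₀ ht1 hexp1
    calc 2 * K₂ / K₃ * (t ^ (2 * a₁ + a₃) / t ^ (2 * a₂)) ≤ 2 * K₂ / K₃ * (1 / t) :=
          mul_le_mul_of_nonneg_left h2 (by positivity)
      _ < δ := by
          rw [mul_one_div, div_lt_iff₀ htpos, mul_comm δ t]
          exact htd
  · have h2 : (ht Q : ℝ) ≤ C₁ ^ 2 * X' := by
      calc (ht Q : ℝ) ≤ C₁ * ht (R i) := hC₁ (R i) Q hQdvd (hRne i) hRN
        _ ≤ C₁ * (C₁ * X') := mul_le_mul_of_nonneg_left (hhtR i) (by linarith)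
        _ = C₁ ^ 2 * X' := by ring
    have h3 : (ht Q : ℝ) ^ w ≤ C₁ ^ (2 * w) * t ^ ((q ^ 2 + q) * w) := by
      calc (ht Q : ℝ) ^ w ≤ (C₁ ^ 2 * X') ^ w := pow_le_pow_left₀ (Nat.cast_nonneg _) h2 w
        _ = _ := by rw [mul_pow, ← pow_mul, hX', ← pow_mul]
    have h4 : (2 * K₂ / K₃) * C₁ ^ (2 * w) * t ^ (2 * a₁ + a₃ + (q ^ 2 + q) * w) ≤
        t ^ (2 * a₂) := const_mul_pow_le ht1 htc hexp3
    calc |ξ - α| * (ht Q : ℝ) ^ w ≤ (2 * K₂ / K₃ * (t ^ (2 * a₁ + a₃) / t ^ (2 * a₂))) *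
          (C₁ ^ (2 * w) * t ^ ((q ^ 2 + q) * w)) :=
          mul_le_mul hdist h3 (by positivity) (by positivity)
      _ = ((2 * K₂ / K₃) * C₁ ^ (2 * w) * t ^ (2 * a₁ + a₃ + (q ^ 2 + q) * w)) /
            t ^ (2 * a₂) := by
          rw [pow_add _ (2 * a₁ + a₃)]
          ring
      _ ≤ 1 := by
          rw [div_le_one (by positivity)]
          exact h4

end Pool.Agent.Helper25.SNum
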