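import Mathlib
import Pool.Agent.Helper25.SNumBasics
import Pool.Agent.Helper25.SNumPigeon
import Pool.Agent.Helper25.SNumNewton
import Pool.Agent.Helper25.SNumMain

set_option autoImplicit false

namespace Pool.Agent.Helper25.SNum

open Polynomial

lemma aeval_ne_zero {ξ : ℝ} (hξ : Transcendental ℤ ξ) {P : ℤ[X]} (hP : P ≠ 0) :
    aeval ξ P ≠ 0 := by
  intro h
  exact hP ((transcendental_iff.1 hξ) P h)

/-- finitely many integer polynomials of bounded degree and height -/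
lemma finite_ht_le (n H : ℕ) : {Q : ℤ[X] | Q.natDegree ≤ n ∧ ht Q ≤ H}.Finite := by
  have hfin : (Set.univ : Set (Fin (n + 1) → Set.Icc (-(H : ℤ)) (H : ℤ))).Finite :=
    Set.finite_univ
  refine (hfin.image (fun f => mkPoly n (fun i => (f i : ℤ)))).subset ?_
  rintro Q ⟨hQ1, hQ2⟩
  have hmem : ∀ i : Fin (n + 1), Q.coeff (i : ℕ) ∈ Set.Icc (-(H : ℤ)) (H : ℤ) := by
    intro i
    have := (natAbs_coeff_le_ht Q i).trans hQ2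
    rw [Set.mem_Icc]
    omega
  refine ⟨fun i => ⟨Q.coeff i, hmem i⟩, Set.mem_univ _, ?_⟩
  ext i
  simp only [coeff_mkPoly]
  split_ifs with h
  · rfl
  · rw [coeff_eq_zero_of_natDegree_lt (by omega)]

/-- From finiteness to a uniform lower bound. -/
lemma lower_bound_of_finite {ξ : ℝ} (hξ : Transcendental ℤ ξ) (n k : ℕ) (E : ℝ) (hE : E = k)
    (hfin : {P : ℤ[X] | P.natDegree ≤ n ∧ aeval ξ P ≠ 0 ∧
      |aeval ξ P| ≤ (ht P : ℝ) ^ (-E)}.Finite) :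
    ∃ c : ℝ, 0 < c ∧ ∀ P : ℤ[X], P ≠ 0 → P.natDegree ≤ n →
      c ≤ |aeval ξ P| * (ht P : ℝ) ^ k := by
  set F := {P : ℤ[X] | P.natDegree ≤ n ∧ aeval ξ P ≠ 0 ∧
      |aeval ξ P| ≤ (ht P : ℝ) ^ (-E)} with hF
  obtain ⟨c, hc, hcF⟩ : ∃ c : ℝ, 0 < c ∧ ∀ P ∈ F, c ≤ |aeval ξ P| := by
    rcases F.eq_empty_or_nonempty with h0 | h0
    · exact ⟨1, one_pos, by rw [h0]; simp⟩
    · obtain ⟨P₀, hP₀, hmin⟩ := Set.exists_min_image F (fun P => |aeval ξ P|) hfin h0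
      exact ⟨|aeval ξ P₀|, abs_pos.2 hP₀.2.1, hmin⟩
  refine ⟨min c 1, lt_min hc one_pos, ?_⟩
  intro P hP0 hPn
  have hht : (1 : ℝ) ≤ ht P := by exact_mod_cast one_le_ht hP0
  have hhtpos : (0 : ℝ) < ht P := by linarith
  have hval := aeval_ne_zero hξ hP0
  by_cases hPF : P ∈ F
  · calc min c 1 ≤ c := min_le_left _ _
      _ ≤ |aeval ξ P| := hcF P hPF
      _ ≤ |aeval ξ P| * (ht P : ℝ) ^ k :=
          le_mul_of_one_le_right (abs_nonneg _) (one_le_pow₀ hht)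
  · have h1 : (ht P : ℝ) ^ (-E) < |aeval ξ P| := by
      by_contra hcon
      push Not at hcon
      exact hPF ⟨hPn, hval, hcon⟩
    rw [hE, Real.rpow_neg hhtpos.le, Real.rpow_natCast] at h1
    have h2 : 1 < |aeval ξ P| * (ht P : ℝ) ^ k := by
      have h3 : 0 < (ht P : ℝ) ^ k := by positivity
      rwa [inv_lt_iff_one_lt_mul₀ h3] at h1
    exact (min_le_right _ _).trans h2.le

theorem part_one (ξ : ℝ) (hξ : Transcendental ℤ ξ)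
    (hyp : ∀ ε : ℝ, 0 < ε → ∃ N : ℕ, ∀ n : ℕ, N ≤ n →
        {P : ℤ[X] | P.natDegree ≤ n ∧ aeval ξ P ≠ 0 ∧
          |aeval ξ P| ≤ (ht P : ℝ) ^ (-((1 + ε) * (n : ℝ)))}.Finite) (ε : ℝ) (hε : 0 < ε) :
    ∃ N : ℕ, ∀ n : ℕ, N ≤ n →
        {α : ℝ | ∃ Q : ℤ[X], Irreducible Q ∧ Q.natDegree ≤ n ∧ aeval α Q = 0 ∧ α ≠ ξ ∧
          |ξ - α| ≤ (ht Q : ℝ) ^ (-((1 + ε) * (n : ℝ) + 1))}.Finite := by
  obtain ⟨N, hN⟩ := hyp (ε / 2) (by positivity)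
  refine ⟨max N 1, fun n hn => ?_⟩
  have hnN : N ≤ n := (le_max_left _ _).trans hn
  have hn1 : 1 ≤ n := (le_max_right _ _).trans hn
  have hn1' : (1 : ℝ) ≤ n := by exact_mod_cast hn1
  have hfin := hN n hnN
  obtain ⟨C, hC1, hC⟩ := abs_aeval_le_of_root ξ n
  -- threshold
  have htend := tendsto_rpow_atTop (show 0 < ε / 2 * n by positivity)
  obtain ⟨T, hT⟩ := (htend.eventually_ge_atTop C).exists_forall_of_atTop
  set H₀ := ⌈T⌉₊ with hH₀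
  set F := {P : ℤ[X] | P.natDegree ≤ n ∧ aeval ξ P ≠ 0 ∧
          |aeval ξ P| ≤ (ht P : ℝ) ^ (-((1 + ε / 2) * (n : ℝ)))} with hF
  have hG := finite_ht_le n H₀
  set G := {Q : ℤ[X] | Q.natDegree ≤ n ∧ ht Q ≤ H₀} with hGdef
  have hbig : (⋃ Q ∈ (F ∪ G), (Q.rootSet ℝ : Set ℝ)).Finite :=
    (hfin.union hG).biUnion (fun Q _ => Q.rootSet_finite ℝ)
  refine hbig.subset ?_
  rintro α ⟨Q, hQirr, hQn, hQα, hαξ, hdist⟩
  have hQ0 : Q ≠ 0 := hQirr.ne_zero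
  have hht1 : (1 : ℝ) ≤ ht Q := by exact_mod_cast one_le_ht hQ0
  have hhtpos : (0 : ℝ) < ht Q := by linarith
  rw [Set.mem_iUnion₂]
  refine ⟨Q, ?_, (mem_rootSet_of_ne hQ0).2 hQα⟩
  by_cases hsmall : ht Q ≤ H₀
  · exact Or.inr ⟨hQn, hsmall⟩
  · left
    refine ⟨hQn, aeval_ne_zero hξ hQ0, ?_⟩
    push Not at hsmall
    have hTQ : T ≤ ht Q := by
      have h1 : (H₀ : ℝ) ≤ ht Q := by exact_mod_cast hsmall.le
      exact (Nat.le_ceil T).trans h1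
    have hCQ : C ≤ (ht Q : ℝ) ^ (ε / 2 * (n : ℝ)) := hT _ hTQ
    have hd1 : |ξ - α| ≤ 1 := hdist.trans
      (Real.rpow_le_one_of_one_le_of_nonpos hht1 (by
        have : 0 ≤ (1 + ε) * (n : ℝ) := by positivity
        linarith))
    calc |aeval ξ Q| ≤ C * ht Q * |ξ - α| := hC Q hQn α hQα hd1
      _ ≤ (ht Q : ℝ) ^ (ε / 2 * (n : ℝ)) * ht Q * (ht Q : ℝ) ^ (-((1 + ε) * (n : ℝ) + 1)) := by
          apply mul_le_mul _ hdist (abs_nonneg _) (by positivity)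
          exact mul_le_mul_of_nonneg_right hCQ hhtpos.le
      _ = (ht Q : ℝ) ^ (-((1 + ε / 2) * (n : ℝ))) := by
          nth_rewrite 2 [← Real.rpow_one (ht Q : ℝ)]
          rw [← Real.rpow_add hhtpos, ← Real.rpow_add hhtpos]
          congr 1
          ring

theorem part_two (ξ : ℝ) (hξ : Transcendental ℤ ξ)
    (hyp : ∀ ε : ℝ, 0 < ε → ∃ N : ℕ, ∀ n : ℕ, N ≤ n →
        {P : ℤ[X] | P.natDegree ≤ n ∧ aeval ξ P ≠ 0 ∧
          |aeval ξ P| ≤ (ht P : ℝ) ^ (-((1 + ε) * (n : ℝ)))}.Finite) (ε : ℝ) (hε : 0 < ε)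
    (N : ℕ) : ∃ n : ℕ, N ≤ n ∧
        {α : ℝ | ∃ Q : ℤ[X], Irreducible Q ∧ Q.natDegree ≤ n ∧ aeval α Q = 0 ∧ α ≠ ξ ∧
          |ξ - α| ≤ (ht Q : ℝ) ^ (-((1 - ε) * (n : ℝ) + 1))}.Infinite := by
  -- choose q
  obtain ⟨q, hq20, hqε⟩ : ∃ q : ℕ, 20 ≤ q ∧ 14 ≤ ε * q := by
    refine ⟨max 20 ⌈14 / ε⌉₊, le_max_left _ _, ?_⟩
    have h1 : 14 / ε ≤ (max 20 ⌈14 / ε⌉₊ : ℕ) := by
      have h2 := Nat.le_ceil (14 / ε)
      have h3 : ((⌈14 / ε⌉₊ : ℕ) : ℝ) ≤ (max 20 ⌈14 / ε⌉₊ : ℕ) := by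
        exact_mod_cast le_max_right _ _
      exact h2.trans h3
    rw [div_le_iff₀ hε] at h1
    linarith
  have hqpos : 0 < q := by omega
  have hqpos' : (0 : ℝ) < q := by exact_mod_cast hqpos
  obtain ⟨N₁, hN₁⟩ := hyp (1 / (q : ℝ) ^ 2) (by positivity)
  obtain ⟨N₂, hN₂⟩ := hyp 1 one_pos
  set e := max (max N₁ N₂) (max N 1) with he
  have heN₁ : N₁ ≤ e := (le_max_left _ _).trans (le_max_left _ _)
  have heN₂ : N₂ ≤ e := (le_max_right _ _).trans (le_max_left _ _)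
  have heN : N ≤ e := (le_max_left _ _).trans (le_max_right _ _)
  have he1 : 1 ≤ e := (le_max_right _ _).trans (le_max_right _ _)
  have hm1 : e ≤ q ^ 2 * e := Nat.le_mul_of_pos_left _ (by positivity)
  have hm2 : e ≤ 2 * (q * e) := by
    have : e ≤ q * e := Nat.le_mul_of_pos_left _ hqpos
    omega
  have hf1 := hN₁ (q ^ 2 * e) (heN₁.trans hm1)
  have hf2 := hN₂ (2 * (q * e)) (heN₂.trans hm2)
  obtain ⟨c₀, hc₀, h0⟩ := lower_bound_of_finite hξ (q ^ 2 * e) ((q ^ 2 + 1) * e) _ (by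
    push_cast
    field_simp) hf1
  obtain ⟨c₁, hc₁, h1⟩ := lower_bound_of_finite hξ (2 * (q * e)) (4 * (q * e)) _ (by
    push_cast
    ring) hf2
  obtain ⟨r, hr⟩ : ∃ r, q = r + 12 := ⟨q - 12, by omega⟩
  obtain ⟨w, hw⟩ : ∃ w, w + 12 * (q * e) = q ^ 2 * e := by
    refine ⟨r * q * e, ?_⟩
    rw [hr]; ring
  refine ⟨q ^ 2 * e + q * e, by omega, ?_⟩
  intro hfin
  -- minimal distance
  set A := {α : ℝ | ∃ Q : ℤ[X], Irreducible Q ∧ Q.natDegree ≤ q ^ 2 * e + q * e ∧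
    aeval α Q = 0 ∧ α ≠ ξ ∧
    |ξ - α| ≤ (ht Q : ℝ) ^ (-((1 - ε) * ((q ^ 2 * e + q * e : ℕ) : ℝ) + 1))} with hA
  have hξA : ξ ∈ Aᶜ := by
    rintro ⟨Q, _, _, _, h, _⟩
    exact h rfl
  have hopen : IsOpen Aᶜ := hfin.isClosed.isOpen_compl
  obtain ⟨δ, hδ, hball⟩ := Metric.isOpen_iff.1 hopen ξ hξA
  obtain ⟨α, Q, hQirr, hQn, hQα, hαδ, hαw⟩ :=
    main_prop ξ hξ q e hq20 he1 c₀ hc₀ h0 c₁ hc₁ h1 δ hδ w hw
  have hQ0 : Q ≠ 0 := hQirr.ne_zero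
  have hht1 : (1 : ℝ) ≤ ht Q := by exact_mod_cast one_le_ht hQ0
  have hhtpos : (0 : ℝ) < ht Q := by linarith
  have hαA : α ∈ Aᶜ := by
    apply hball
    rw [Metric.mem_ball, Real.dist_eq, abs_sub_comm]
    exact hαδ
  apply hαA
  refine ⟨Q, hQirr, hQn, hQα, ?_, ?_⟩
  · rintro rfl
    exact aeval_ne_zero hξ hQ0 hQα
  · have h2 : |ξ - α| ≤ (ht Q : ℝ) ^ (-(w : ℝ)) := by
      rw [Real.rpow_neg hhtpos.le, Real.rpow_natCast, ← one_div, le_div_iff₀ (by positivity)]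
      exact hαw
    refine h2.trans (Real.rpow_le_rpow_of_exponent_le hht1 ?_)
    have hwR : (w : ℝ) + 12 * (q * e) = (q : ℝ) ^ 2 * e := by exact_mod_cast hw
    have he1' : (1 : ℝ) ≤ e := by exact_mod_cast he1
    push_cast
    have h3 : 14 * (((q : ℝ) + 1) * e) ≤ ε * q * (((q : ℝ) + 1) * e) :=
      mul_le_mul_of_nonneg_right hqε (by positivity)
    nlinarith

/-- The frozen statement in terms of `ht`. -/
theorem final (ξ : ℝ) (hξ : Transcendental ℤ ξ)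
    (hyp : ∀ ε : ℝ, 0 < ε → ∃ N : ℕ, ∀ n : ℕ, N ≤ n →
        {P : ℤ[X] | P.natDegree ≤ n ∧ aeval ξ P ≠ 0 ∧
          |aeval ξ P| ≤ (ht P : ℝ) ^ (-((1 + ε) * (n : ℝ)))}.Finite) :
    (∀ ε : ℝ, 0 < ε → ∃ N : ℕ, ∀ n : ℕ, N ≤ n →
        {α : ℝ | ∃ Q : ℤ[X], Irreducible Q ∧ Q.natDegree ≤ n ∧ aeval α Q = 0 ∧ α ≠ ξ ∧
          |ξ - α| ≤ (ht Q : ℝ) ^ (-((1 + ε) * (n : ℝ) + 1))}.Finite) ∧
    (∀ ε : ℝ, 0 < ε → ∀ N : ℕ, ∃ n : ℕ, N ≤ n ∧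
        {α : ℝ | ∃ Q : ℤ[X], Irreducible Q ∧ Q.natDegree ≤ n ∧ aeval α Q = 0 ∧ α ≠ ξ ∧
          |ξ - α| ≤ (ht Q : ℝ) ^ (-((1 - ε) * (n : ℝ) + 1))}.Infinite) :=
  ⟨part_one ξ hξ hyp, part_two ξ hξ hyp⟩

end Pool.Agent.Helper25.SNum
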