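import Mathlib
import Pool.Agent.Helper25.SNumFinal

set_option autoImplicit false

namespace Pool.Agent.Helper25.SNum

open Polynomial

/-- Strong form: if `w_n(ξ) ≤ (1 + 1/q²) n` for all large `n`, then for all large `n` there are
infinitely many real algebraic numbers of degree at most `n` which approximate `ξ` with exponent
`(1 - 13/(q+1) - η) n + 1`. -/
theorem strong (ξ : ℝ) (hξ : Transcendental ℤ ξ) (q : ℕ) (hq20 : 20 ≤ q)
    (hyp : ∃ N : ℕ, ∀ n : ℕ, N ≤ n →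
        {P : ℤ[X] | P.natDegree ≤ n ∧ aeval ξ P ≠ 0 ∧
          |aeval ξ P| ≤ (ht P : ℝ) ^ (-((1 + 1 / (q : ℝ) ^ 2) * (n : ℝ)))}.Finite)
    (η : ℝ) (hη : 0 < η) :
    ∃ N : ℕ, ∀ n : ℕ, N ≤ n →
        {α : ℝ | ∃ Q : ℤ[X], Irreducible Q ∧ Q.natDegree ≤ n ∧ aeval α Q = 0 ∧ α ≠ ξ ∧
          |ξ - α| ≤ (ht Q : ℝ) ^
            (-((1 - 13 / ((q : ℝ) + 1) - η) * (n : ℝ) + 1))}.Infinite := by
  have hqpos : 0 < q := by omega
  have hqpos' : (0 : ℝ) < q := by exact_mod_cast hqpos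
  have hq20' : (20 : ℝ) ≤ q := by exact_mod_cast hq20
  obtain ⟨N₁, hN₁⟩ := hyp
  obtain ⟨K, hK⟩ : ∃ K : ℕ, K = q ^ 2 + q := ⟨_, rfl⟩
  have hKpos : 0 < K := by rw [hK]; positivity
  refine ⟨max (K * max N₁ 1) ⌈((q : ℝ) ^ 2 + 1) / η⌉₊, fun n hn => ?_⟩
  have hn1 : K * max N₁ 1 ≤ n := (le_max_left _ _).trans hn
  have hn2 : ((q : ℝ) ^ 2 + 1) / η ≤ n :=
    (Nat.le_ceil _).trans (by exact_mod_cast (le_max_right _ _).trans hn)
  have hn3 : (q : ℝ) ^ 2 + 1 ≤ η * n := by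
    rw [div_le_iff₀ hη] at hn2
    linarith
  obtain ⟨e, he⟩ : ∃ e : ℕ, e = n / K := ⟨_, rfl⟩
  have he2 : max N₁ 1 ≤ e := by
    rw [he, Nat.le_div_iff_mul_le hKpos, mul_comm]
    exact hn1
  have heN₁ : N₁ ≤ e := (le_max_left _ _).trans he2
  have he1 : 1 ≤ e := (le_max_right _ _).trans he2
  have hle : K * e ≤ n := by rw [he]; exact Nat.mul_div_le n K
  have hlt : n < K * (e + 1) := by
    rw [he, Nat.mul_succ]; exact Nat.lt_mul_div_succ n hKpos |>.trans_le (by rw [Nat.mul_succ])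
  have hm1 : e ≤ q ^ 2 * e := Nat.le_mul_of_pos_left _ (by positivity)
  have hm2 : e ≤ 2 * (q * e) := by
    have : e ≤ q * e := Nat.le_mul_of_pos_left _ hqpos
    omega
  have hf1 := hN₁ (q ^ 2 * e) (heN₁.trans hm1)
  have hf2' := hN₁ (2 * (q * e)) (heN₁.trans hm2)
  have hf2 : {P : ℤ[X] | P.natDegree ≤ 2 * (q * e) ∧ aeval ξ P ≠ 0 ∧
      |aeval ξ P| ≤ (ht P : ℝ) ^ (-((4 * (q * e) : ℕ) : ℝ))}.Finite := by
    refine hf2'.subset ?_
    rintro P ⟨h1, h2, h3⟩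
    have hP0 : P ≠ 0 := by rintro rfl; simp at h2
    have hht1 : (1 : ℝ) ≤ ht P := by exact_mod_cast one_le_ht hP0
    refine ⟨h1, h2, h3.trans (Real.rpow_le_rpow_of_exponent_le hht1 ?_)⟩
    have h4 : 1 / (q : ℝ) ^ 2 ≤ 1 := by
      rw [div_le_one (by positivity)]
      nlinarith
    push_cast
    have h5 : (0 : ℝ) ≤ 2 * (q * e) := by positivity
    nlinarith
  obtain ⟨c₀, hc₀, h0⟩ := lower_bound_of_finite hξ (q ^ 2 * e) ((q ^ 2 + 1) * e) _ (by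
    push_cast
    field_simp) hf1
  obtain ⟨c₁, hc₁, h1⟩ := lower_bound_of_finite hξ (2 * (q * e)) (4 * (q * e)) _ rfl hf2
  obtain ⟨r, hr⟩ : ∃ r, q = r + 12 := ⟨q - 12, by omega⟩
  obtain ⟨w, hw⟩ : ∃ w, w + 12 * (q * e) = q ^ 2 * e := by
    refine ⟨r * q * e, ?_⟩
    rw [hr]; ring
  intro hfin
  -- minimal distance
  set A := {α : ℝ | ∃ Q : ℤ[X], Irreducible Q ∧ Q.natDegree ≤ n ∧
    aeval α Q = 0 ∧ α ≠ ξ ∧
    |ξ - α| ≤ (ht Q : ℝ) ^ (-((1 - 13 / ((q : ℝ) + 1) - η) * (n : ℝ) + 1))} with hA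
  have hξA : ξ ∈ Aᶜ := by
    rintro ⟨Q, _, _, _, h, _⟩
    exact h rfl
  have hopen : IsOpen Aᶜ := hfin.isClosed.isOpen_compl
  obtain ⟨δ, hδ, hball⟩ := Metric.isOpen_iff.1 hopen ξ hξA
  obtain ⟨α, Q, hQirr, hQn, hQα, hαδ, hαw⟩ :=
    main_prop ξ hξ q e hq20 he1 c₀ hc₀ h0 c₁ hc₁ h1 δ hδ w hw
  have hQ0 : Q ≠ 0 := hQirr.ne_zero
  have hht1 : (1 : ℝ) ≤ ht Q := by exact_mod_cast one_le_ht hQ0
  have hhtpos : (0 : ℝ) < ht Q := by linarith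
  have hαA : α ∈ Aᶜ := by
    apply hball
    rw [Metric.mem_ball, Real.dist_eq, abs_sub_comm]
    exact hαδ
  apply hαA
  have hQn' : Q.natDegree ≤ n := by
    refine hQn.trans ?_
    have : q ^ 2 * e + q * e = K * e := by rw [hK]; ring
    rw [this]; exact hle
  refine ⟨Q, hQirr, hQn', hQα, ?_, ?_⟩
  · rintro rfl
    exact aeval_ne_zero hξ hQ0 hQα
  · have h2 : |ξ - α| ≤ (ht Q : ℝ) ^ (-(w : ℝ)) := by
      rw [Real.rpow_neg hhtpos.le, Real.rpow_natCast, ← one_div, le_div_iff₀ (by positivity)]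
      exact hαw
    refine h2.trans (Real.rpow_le_rpow_of_exponent_le hht1 ?_)
    have hwR : (w : ℝ) + 12 * (q * e) = (q : ℝ) ^ 2 * e := by exact_mod_cast hw
    have hltR : (n : ℝ) ≤ ((q : ℝ) ^ 2 + q) * (e + 1) := by
      have h3 : (n : ℝ) < (K : ℝ) * (e + 1) := by exact_mod_cast hlt
      have h4 : (K : ℝ) = (q : ℝ) ^ 2 + q := by rw [hK]; push_cast; ring
      rw [h4] at h3
      exact h3.le
    have hc : 1 - 13 / ((q : ℝ) + 1) = ((q : ℝ) - 12) / (q + 1) := by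
      field_simp
      ring
    have hc0 : 0 ≤ ((q : ℝ) - 12) / (q + 1) := by
      apply div_nonneg <;> linarith
    have h5 : ((q : ℝ) - 12) / (q + 1) * n ≤ ((q : ℝ) - 12) * (q * (e + 1)) := by
      calc ((q : ℝ) - 12) / (q + 1) * n ≤
          ((q : ℝ) - 12) / (q + 1) * (((q : ℝ) ^ 2 + q) * (e + 1)) :=
            mul_le_mul_of_nonneg_left hltR hc0
        _ = ((q : ℝ) - 12) * (q * (e + 1)) := by
          field_simp
    rw [hc]
    nlinarith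

end Pool.Agent.Helper25.SNum
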